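import Pool.Agent.H284_heavy.Smooth

/-!
# Connectedness of all fibers of the pencil of the example
-/

set_option autoImplicit false

open MvPolynomial

namespace Pool.Agent.H284_heavy

/-- `y` -/
noncomputable abbrev yy : MvPolynomial (Fin 2) ℂ := X 0
/-- `z` -/
noncomputable abbrev zz : MvPolynomial (Fin 2) ℂ := X 1
/-- `w = y + z` -/
noncomputable abbrev ww : MvPolynomial (Fin 2) ℂ := X 0 + X 1

lemma prime_ww : Prime ww := by
  have hne : ww ≠ 0 := by
    intro h
    have := congrArg (eval ![1, 0]) h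
    simp at this
  have hirr : Irreducible ww := by
    refine irreducible_of_totalDegree_eq_one
      (((isHomogeneous_X ℂ (0 : Fin 2)).add (isHomogeneous_X ℂ (1 : Fin 2))).totalDegree hne) ?_
    intro x hx
    rw [isUnit_iff_ne_zero]
    rintro rfl
    apply hne
    ext i
    rw [coeff_zero]
    exact zero_dvd_iff.1 (hx i)
  exact hirr.prime

lemma not_dvd_of_eval {p q : MvPolynomial (Fin 2) ℂ} (v : Fin 2 → ℂ) (hp : eval v p = 0)
    (hq : eval v q ≠ 0) : ¬ p ∣ q := by
  rintro ⟨r, rfl⟩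
  exact hq (by rw [map_mul, hp, zero_mul])

/-- second coefficient -/
noncomputable def KK1 (a b c : ℂ) : MvPolynomial (Fin 2) ℂ :=
  -(C a * (zz ^ 2 * ww ^ 2) + C b * (yy ^ 2 * ww ^ 2) + C c * (yy ^ 2 * zz ^ 2))

/-- fourth coefficient -/
noncomputable def KK2 (p q r : ℂ) : MvPolynomial (Fin 2) ℂ :=
  C p * yy ^ 2 + C q * zz ^ 2 + C r * ww ^ 2

lemma finSucc_comb (α β : ℂ) :
    finSuccEquiv ℂ 2 (C α * fiber M 1 + C β * fiber M 2) =
      Polynomial.C (yy ^ 2 * (zz ^ 2 * (ww ^ 2 * C (α + β)))) +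
      Polynomial.C (KK1 (225 * α + 36 * β) (900 * α + 25 * β) (16 * α + 3600 * β)) *
        Polynomial.X ^ 2 +
      Polynomial.C (KK2 (14400 * α + 90000 * β) (3600 * α + 129600 * β) (202500 * α + 900 * β)) *
        Polynomial.X ^ 4 +
      Polynomial.C (C (-3240000 * (α + β))) * Polynomial.X ^ 6 := by
  have x1 : finSuccEquiv ℂ 2 (X 1) = Polynomial.C yy := finSuccEquiv_X_succ (j := 0)
  have x2 : finSuccEquiv ℂ 2 (X 2) = Polynomial.C zz := finSuccEquiv_X_succ (j := 1)
  have x0 : finSuccEquiv ℂ 2 (X 0) = Polynomial.X := finSuccEquiv_X_zero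
  have c : ∀ a : ℂ, finSuccEquiv ℂ 2 (C a) = Polynomial.C (C a) := by
    intro a
    rw [finSuccEquiv_apply]
    simp
  rw [fiber_one', fiber_two']
  simp only [map_add, map_mul, map_sub, map_pow, x0, x1, x2, c, KK1, KK2, ww, map_neg]
  simp only [map_ofNat]
  ring


lemma coeffs (α β : ℂ) :
    (finSuccEquiv ℂ 2 (C α * fiber M 1 + C β * fiber M 2)).coeff 0 =
      yy ^ 2 * (zz ^ 2 * (ww ^ 2 * C (α + β))) ∧
    (finSuccEquiv ℂ 2 (C α * fiber M 1 + C β * fiber M 2)).coeff 1 = 0 ∧
    (finSuccEquiv ℂ 2 (C α * fiber M 1 + C β * fiber M 2)).coeff 2 =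
      KK1 (225 * α + 36 * β) (900 * α + 25 * β) (16 * α + 3600 * β) ∧
    (finSuccEquiv ℂ 2 (C α * fiber M 1 + C β * fiber M 2)).coeff 4 =
      KK2 (14400 * α + 90000 * β) (3600 * α + 129600 * β) (202500 * α + 900 * β) := by
  rw [finSucc_comb]
  refine ⟨?_, ?_, ?_, ?_⟩ <;>
    simp only [Polynomial.coeff_add, Polynomial.coeff_C_mul, Polynomial.coeff_X_pow,
      Polynomial.coeff_C] <;> norm_num

lemma cond_y {α β : ℂ} (hγ : α + β ≠ 0) :
    ¬ yy ∣ KK1 (225 * α + 36 * β) (900 * α + 25 * β) (16 * α + 3600 * β) ∨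
    (yy ^ 2 ∣ KK1 (225 * α + 36 * β) (900 * α + 25 * β) (16 * α + 3600 * β) ∧
      ¬ yy ∣ KK2 (14400 * α + 90000 * β) (3600 * α + 129600 * β) (202500 * α + 900 * β)) := by
  by_cases ha : 225 * α + 36 * β = 0
  · right
    refine ⟨⟨-(C (900 * α + 25 * β) * ww ^ 2 + C (16 * α + 3600 * β) * zz ^ 2), ?_⟩, ?_⟩
    · rw [KK1, ha, C_0]
      ring
    · refine not_dvd_of_eval ![0, 1] (by simp) ?_
      have e : eval ![0, 1] (KK2 (14400 * α + 90000 * β) (3600 * α + 129600 * β)
          (202500 * α + 900 * β)) = (3600 * α + 129600 * β) + (202500 * α + 900 * β) := by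
        simp [KK2]
      rw [e]
      intro h
      have hβ : β = 0 := by linear_combination (h * 225 - 206100 * ha) / (130500 * 225 - 206100 * 36)
      have hα : α = 0 := by
        rw [hβ] at ha
        linear_combination ha / 225
      exact hγ (by rw [hα, hβ, add_zero])
  · left
    refine not_dvd_of_eval ![0, 1] (by simp) ?_
    have e : eval ![0, 1] (KK1 (225 * α + 36 * β) (900 * α + 25 * β) (16 * α + 3600 * β)) =
        -(225 * α + 36 * β) := by
      simp [KK1]
    rw [e]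
    exact neg_ne_zero.2 ha

lemma cond_z {α β : ℂ} (hγ : α + β ≠ 0) :
    ¬ zz ∣ KK1 (225 * α + 36 * β) (900 * α + 25 * β) (16 * α + 3600 * β) ∨
    (zz ^ 2 ∣ KK1 (225 * α + 36 * β) (900 * α + 25 * β) (16 * α + 3600 * β) ∧
      ¬ zz ∣ KK2 (14400 * α + 90000 * β) (3600 * α + 129600 * β) (202500 * α + 900 * β)) := by
  by_cases ha : 900 * α + 25 * β = 0
  · right
    refine ⟨⟨-(C (225 * α + 36 * β) * ww ^ 2 + C (16 * α + 3600 * β) * yy ^ 2), ?_⟩, ?_⟩
    · rw [KK1, ha, C_0]
      ring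
    · refine not_dvd_of_eval ![1, 0] (by simp) ?_
      have e : eval ![1, 0] (KK2 (14400 * α + 90000 * β) (3600 * α + 129600 * β)
          (202500 * α + 900 * β)) = (14400 * α + 90000 * β) + (202500 * α + 900 * β) := by
        simp [KK2]
      rw [e]
      intro h
      have hβ : β = 0 := by linear_combination (h * 900 - 216900 * ha) / (90900 * 900 - 216900 * 25)
      have hα : α = 0 := by
        rw [hβ] at ha
        linear_combination ha / 900
      exact hγ (by rw [hα, hβ, add_zero])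
  · left
    refine not_dvd_of_eval ![1, 0] (by simp) ?_
    have e : eval ![1, 0] (KK1 (225 * α + 36 * β) (900 * α + 25 * β) (16 * α + 3600 * β)) =
        -(900 * α + 25 * β) := by
      simp [KK1]
    rw [e]
    exact neg_ne_zero.2 ha

lemma cond_w {α β : ℂ} (hγ : α + β ≠ 0) :
    ¬ ww ∣ KK1 (225 * α + 36 * β) (900 * α + 25 * β) (16 * α + 3600 * β) ∨
    (ww ^ 2 ∣ KK1 (225 * α + 36 * β) (900 * α + 25 * β) (16 * α + 3600 * β) ∧
      ¬ ww ∣ KK2 (14400 * α + 90000 * β) (3600 * α + 129600 * β) (202500 * α + 900 * β)) := by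
  by_cases ha : 16 * α + 3600 * β = 0
  · right
    refine ⟨⟨-(C (225 * α + 36 * β) * zz ^ 2 + C (900 * α + 25 * β) * yy ^ 2), ?_⟩, ?_⟩
    · rw [KK1, ha, C_0]
      ring
    · refine not_dvd_of_eval ![1, -1] (by simp) ?_
      have e : eval ![1, -1] (KK2 (14400 * α + 90000 * β) (3600 * α + 129600 * β)
          (202500 * α + 900 * β)) = (14400 * α + 90000 * β) + (3600 * α + 129600 * β) := by
        simp [KK2]
      rw [e]
      intro h
      have hβ : β = 0 := by linear_combination (h * 16 - 18000 * ha) / (219600 * 16 - 18000 * 3600)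
      have hα : α = 0 := by
        rw [hβ] at ha
        linear_combination ha / 16
      exact hγ (by rw [hα, hβ, add_zero])
  · left
    refine not_dvd_of_eval ![1, -1] (by simp) ?_
    have e : eval ![1, -1] (KK1 (225 * α + 36 * β) (900 * α + 25 * β) (16 * α + 3600 * β)) =
        -(16 * α + 3600 * β) := by
      simp [KK1]
    rw [e]
    exact neg_ne_zero.2 ha

lemma eval_scale {B : MvPolynomial (Fin 3) ℂ} {f : ℕ} (hB : B.IsHomogeneous f) (t : ℂ)
    (v : Fin 3 → ℂ) : eval (fun i => t * v i) B = t ^ f * eval v B := by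
  rw [eval_eq', eval_eq', Finset.mul_sum]
  refine Finset.sum_congr rfl fun d hd => ?_
  have hdeg : ∑ i, d i = f := by
    by_contra hne
    apply mem_support_iff.1 hd
    apply hB.coeff_eq_zero
    rw [Finsupp.degree_eq_sum]
    exact hne
  simp_rw [mul_pow]
  rw [Finset.prod_mul_distrib, Finset.prod_pow_eq_pow_sum, hdeg]
  ring

lemma ae (v : Fin 3 → ℂ) (q : MvPolynomial (Fin 3) ℂ) : aeval v q = eval v q :=
  RingHom.congr_fun (coe_aeval_eq_eval v) q

/-- A zero of `A` off the line `x = 0`. -/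
lemma exists_zero {A : MvPolynomial (Fin 3) ℂ} {e : ℕ} (hA : A.IsHomogeneous e) (he : 1 ≤ e)
    (hA0 : A ≠ 0) (hX : ¬ X 0 ∣ A) : ∃ v : Fin 3 → ℂ, eval v A = 0 ∧ v 0 ≠ 0 := by
  by_contra hcon
  push Not at hcon
  have h1 : X 0 ∈ (Ideal.span {A}).radical := by
    rw [← vanishingIdeal_zeroLocus_eq_radical (K := ℂ)]
    intro v hv
    have : eval v A = 0 := by
      have := hv A (Ideal.subset_span rfl)
      rwa [ae] at this
    simpa using hcon v this
  obtain ⟨N, hN⟩ := h1
  rw [Ideal.mem_span_singleton] at hN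
  obtain ⟨i, -, hi⟩ := (dvd_prime_pow X_prime N).1 hN
  rcases Nat.eq_zero_or_pos i with h0 | h0
  · rw [h0, pow_zero, associated_one_iff_isUnit] at hi
    have h2 := (isUnit_iff_totalDegree_of_isReduced.1 hi).2
    rw [hA.totalDegree hA0] at h2
    omega
  · exact hX ((dvd_pow_self _ (by omega)).trans hi.symm.dvd)

/-- The last step: `x²` is not in the ideal `(A, B)`. -/
lemma last_step {A B U V : MvPolynomial (Fin 3) ℂ} {e f : ℕ} (hA : A.IsHomogeneous e) (he : 1 ≤ e)
    (hA0 : A ≠ 0) (hX : ¬ X 0 ∣ A) (hB : B.IsHomogeneous f) (hf : 3 ≤ f)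
    (h : U * A + V * B = X 0 ^ 2) : False := by
  obtain ⟨v, hv, hv0⟩ := exists_zero hA he hA0 hX
  have h1 : ∀ t : ℂ, t ≠ 0 → t ^ (f - 2) * (eval (fun i => t * v i) V * eval v B) = v 0 ^ 2 := by
    intro t ht
    have h2 := congrArg (eval (fun i => t * v i)) h
    rw [map_add, map_mul, map_mul, eval_scale hA, eval_scale hB, hv, map_pow, eval_X] at h2
    apply mul_left_cancel₀ (pow_ne_zero 2 ht)
    have h3 : t ^ f = t ^ 2 * t ^ (f - 2) := by rw [← pow_add]; congr 1; omega
    rw [h3] at h2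
    linear_combination h2
  have hc : Continuous fun t : ℂ => t ^ (f - 2) * (eval (fun i => t * v i) V * eval v B) := by
    refine (continuous_pow _).mul (Continuous.mul ?_ continuous_const)
    exact (MvPolynomial.continuous_eval V).comp
      (continuous_pi fun i => continuous_id.mul continuous_const)
  have h4 : (fun t : ℂ => t ^ (f - 2) * (eval (fun i => t * v i) V * eval v B)) =
      fun _ => v 0 ^ 2 :=
    Continuous.ext_on (dense_compl_singleton (0 : ℂ)) hc continuous_const fun t ht => h1 t ht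
  have h5 := congrFun h4 0
  beta_reduce at h5
  rw [zero_pow (by omega), zero_mul] at h5
  exact pow_ne_zero 2 hv0 h5.symm

/-- **Connectedness.** If a member of the pencil that is not a multiple of the heavy block form is
a product of two forms of positive degree, then these have a common zero outside the base. -/
theorem ceva {α β : ℂ} (hγ : α + β ≠ 0) {A B : MvPolynomial (Fin 3) ℂ} {e f : ℕ}
    (hA : A.IsHomogeneous e) (hB : B.IsHomogeneous f) (he : 1 ≤ e) (hf : 1 ≤ f)
    (h : C α * fiber M 1 + C β * fiber M 2 = A * B) :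
    ∃ v, v ≠ 0 ∧ eval v A = 0 ∧ eval v B = 0 ∧ ¬ IsBase M v := by
  by_contra hcon
  push Not at hcon
  have hP0 : eval ![0, 1, 1] (C α * fiber M 1 + C β * fiber M 2) ≠ 0 := by
    rw [eval_comb]
    intro h0
    apply hγ
    linear_combination h0 / 4
  have hAB0 : A * B ≠ 0 := by
    intro h0
    rw [h, h0, map_zero] at hP0
    exact hP0 rfl
  have hA0 : A ≠ 0 := left_ne_zero_of_mul hAB0
  have hB0 : B ≠ 0 := right_ne_zero_of_mul hAB0
  have hXP : ¬ X 0 ∣ A * B := by
    intro hd
    rw [h] at hP0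
    exact hP0 (eval_of_dvd hd _ (by simp))
  have hXA : ¬ X 0 ∣ A := fun hd => hXP (hd.mul_right B)
  have hXB : ¬ X 0 ∣ B := fun hd => hXP (hd.mul_left A)
  -- common zeros are on `x = 0`
  have hz : ∀ v : Fin 3 → ℂ, eval v A = 0 → eval v B = 0 → v 0 = 0 := by
    intro v h1 h2
    by_contra hv0
    have hv : v ≠ 0 := fun h => hv0 (by rw [h]; rfl)
    exact not_base hγ h hv0 h1 h2 (hcon v hv h1 h2)
  have hrad : X 0 ∈ (Ideal.span {A, B}).radical := by
    rw [← vanishingIdeal_zeroLocus_eq_radical (K := ℂ)]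
    intro v hv
    have h1 : eval v A = 0 := by
      have := hv A (Ideal.subset_span (by simp))
      rwa [ae] at this
    have h2 : eval v B = 0 := by
      have := hv B (Ideal.subset_span (by simp))
      rwa [ae] at this
    simpa using hz v h1 h2
  obtain ⟨N, hN⟩ := hrad
  rw [Ideal.mem_span_pair] at hN
  obtain ⟨U, V, hUV⟩ := hN
  -- transfer to polynomials in `x`
  set φ := finSuccEquiv ℂ 2 with hφ
  obtain ⟨k0, k1, k2, k4⟩ := coeffs α β
  rw [h, map_mul] at k0 k1 k2 k4
  have hpow : ∃ U' V' : Polynomial (MvPolynomial (Fin 2) ℂ),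
      U' * φ A + V' * φ B = Polynomial.X ^ N := by
    refine ⟨φ U, φ V, ?_⟩
    rw [← map_mul, ← map_mul, ← map_add, hUV, map_pow, hφ, finSuccEquiv_X_zero]
  have hu2 : IsUnit (2 : MvPolynomial (Fin 2) ℂ) := by
    have : (2 : MvPolynomial (Fin 2) ℂ) = C 2 := by rw [map_ofNat]
    rw [this]
    exact (isUnit_iff_ne_zero.2 (two_ne_zero (α := ℂ))).map C
  have huγ : IsUnit (C (α + β) : MvPolynomial (Fin 2) ℂ) :=
    (isUnit_iff_ne_zero.2 hγ).map C
  obtain ⟨U', V', h2⟩ := descent (y := yy) (z := zz) (w := ww) (γ := C (α + β))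
    X_prime X_prime prime_ww
    (not_dvd_of_eval ![0, 1] (by simp) (by simp)) (not_dvd_of_eval ![0, 1] (by simp) (by simp))
    (not_dvd_of_eval ![1, 0] (by simp) (by simp)) (not_dvd_of_eval ![1, 0] (by simp) (by simp))
    (not_dvd_of_eval ![1, -1] (by simp) (by simp)) (not_dvd_of_eval ![1, -1] (by simp) (by simp))
    huγ hu2 k0 k1 k2 k4 (cond_y hγ) (cond_z hγ) (cond_w hγ) N hpow
  have h3 : φ.symm U' * A + φ.symm V' * B = X 0 ^ 2 := by
    apply φ.injective
    rw [map_add, map_mul, map_mul, map_pow, AlgEquiv.apply_symm_apply, AlgEquiv.apply_symm_apply,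
      h2, hφ, finSuccEquiv_X_zero]
  -- degrees
  have hP : (C α * fiber M 1 + C β * fiber M 2).IsHomogeneous 6 :=
    ((fiber_homogeneous 1).C_mul α).add ((fiber_homogeneous 2).C_mul β)
  rw [h] at hP
  have hef : e + f = 6 := (hA.mul hB).inj_right hP hAB0
  rcases (by omega : 3 ≤ f ∨ 3 ≤ e) with h6 | h6
  · exact last_step hA he hA0 hXA hB h6 h3
  · exact last_step hB hf hB0 hXB hA h6 (by rw [add_comm]; exact h3)

end Pool.Agent.H284_heavy
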