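import Mathlib

/-!
# Heavy multinets not induced from `Q_n`: the obstruction

Restrictions of the products of planes of `Q_n` to a plane, seen near a double line.
-/

set_option autoImplicit false

open MvPolynomial

namespace Pool.Agent.H284_heavy

/-- The linear form in three variables with coefficient vector `a`. -/
noncomputable def lin (a : Fin 3 → ℂ) : MvPolynomial (Fin 3) ℂ :=
  C (a 0) * X 0 + C (a 1) * X 1 + C (a 2) * X 2

/-- The value of the linear form with coefficient vector `a` at `v`. -/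
def val (a v : Fin 3 → ℂ) : ℂ := a 0 * v 0 + a 1 * v 1 + a 2 * v 2

lemma eval_lin (a v : Fin 3 → ℂ) : eval v (lin a) = val a v := by simp [lin, val]

lemma eval_of_dvd {P : MvPolynomial (Fin 3) ℂ} (h : X 0 ∣ P) (v : Fin 3 → ℂ) (hv : v 0 = 0) :
    eval v P = 0 := by
  obtain ⟨Q, rfl⟩ := h
  simp [hv]

lemma prop_of_pow {n : ℕ} (hn : 1 ≤ n) (a1 a2 b1 b2 : ℂ)
    (h : ∀ y z : ℂ, (a1 * y + a2 * z) ^ n = (b1 * y + b2 * z) ^ n) :
    ∃ ζ : ℂ, ζ ^ n = 1 ∧ a1 = ζ * b1 ∧ a2 = ζ * b2 := by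
  have hn0 : n ≠ 0 := by omega
  by_cases hb1 : b1 = 0
  · by_cases hb2 : b2 = 0
    · subst hb1 hb2
      have h1 := h 1 0
      have h2 := h 0 1
      simp [hn0] at h1 h2
      exact ⟨1, one_pow n, by simp [h1], by simp [h2]⟩
    · have h1 := h 1 0
      simp only [hb1, mul_one, mul_zero, add_zero] at h1
      rw [zero_pow hn0] at h1
      have ha1 : a1 = 0 := pow_eq_zero_iff hn0 |>.1 h1
      have h2 := h 0 1
      simp only [mul_one, mul_zero, zero_add] at h2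
      refine ⟨a2 / b2, ?_, ?_, ?_⟩
      · rw [div_pow, h2, div_self (pow_ne_zero n hb2)]
      · rw [ha1, hb1, mul_zero]
      · rw [div_mul_cancel₀ _ hb2]
  · have h1 := h 1 0
    simp only [mul_one, mul_zero, add_zero] at h1
    have h2 := h b2 (-b1)
    have h3 : b1 * b2 + b2 * -b1 = 0 := by ring
    rw [h3, zero_pow hn0] at h2
    have h4 : a1 * b2 + a2 * -b1 = 0 := pow_eq_zero_iff hn0 |>.1 h2
    refine ⟨a1 / b1, ?_, ?_, ?_⟩
    · rw [div_pow, h1, div_self (pow_ne_zero n hb1)]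
    · rw [div_mul_cancel₀ _ hb1]
    · field_simp
      linear_combination -h4

lemma expand {n : ℕ} {ζ lam : ℂ} {a b : Fin 3 → ℂ} (hζ : ζ ^ n = 1)
    (ha : lin a = C ζ * lin b + C lam * X 0) :
    ∃ K : MvPolynomial (Fin 3) ℂ, lin a ^ n - lin b ^ n =
      X 0 * (C (n * ζ ^ (n - 1) * lam) * lin b ^ (n - 1) + X 0 * K) := by
  obtain ⟨k, hk⟩ := Polynomial.powAddExpansion (C ζ * lin b) (C lam * X 0 : MvPolynomial (Fin 3) ℂ) n
  refine ⟨k * C lam ^ 2, ?_⟩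
  have h1 : (C ζ * lin b) ^ n = lin b ^ n := by rw [mul_pow, ← C_pow, hζ, C_1, one_mul]
  have h2 : (C ζ * lin b) ^ (n - 1) = C (ζ ^ (n - 1)) * lin b ^ (n - 1) := by
    rw [mul_pow, ← C_pow]
  have h3 : (C ((n : ℂ) * ζ ^ (n - 1) * lam) : MvPolynomial (Fin 3) ℂ) =
      (n : MvPolynomial (Fin 3) ℂ) * C (ζ ^ (n - 1)) * C lam := by
    rw [C_mul, C_mul, map_natCast]
  rw [ha, hk, h1, h2, h3]
  ring

/-- If `x₀` divides `a^n - b^n` and the plane `a = ζ b` is not excluded, the expansion holds with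
a nonzero coefficient. -/
lemma step {n : ℕ} (hn : 1 ≤ n) {a b : Fin 3 → ℂ} (hab : ∀ ζ : ℂ, ζ ^ n = 1 → ∃ j, a j ≠ ζ * b j)
    (h : X 0 ∣ lin a ^ n - lin b ^ n) :
    ∃ (ζ κ : ℂ) (K : MvPolynomial (Fin 3) ℂ), a 1 = ζ * b 1 ∧ a 2 = ζ * b 2 ∧ κ ≠ 0 ∧
      lin a ^ n - lin b ^ n = X 0 * (C κ * lin b ^ (n - 1) + X 0 * K) := by
  obtain ⟨ζ, hζ, h1, h2⟩ := prop_of_pow hn (a 1) (a 2) (b 1) (b 2) (by
    intro y z
    have := eval_of_dvd h ![0, y, z] (by simp)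
    simp only [map_sub, map_pow, eval_lin, val, sub_eq_zero] at this
    simpa using this)
  have hlam : a 0 - ζ * b 0 ≠ 0 := by
    intro h0
    obtain ⟨j, hj⟩ := hab ζ hζ
    fin_cases j
    · exact hj (by simpa [sub_eq_zero] using h0)
    · exact hj h1
    · exact hj h2
  have ha : lin a = C ζ * lin b + C (a 0 - ζ * b 0) * X 0 := by
    unfold lin
    rw [h1, h2]
    simp only [C_mul, C_sub]
    ring
  obtain ⟨K, hK⟩ := expand hζ ha
  refine ⟨ζ, n * ζ ^ (n - 1) * (a 0 - ζ * b 0), K, h1, h2, ?_, hK⟩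
  have hζ0 : ζ ≠ 0 := by
    rintro rfl
    rw [zero_pow (by omega)] at hζ
    exact zero_ne_one hζ
  exact mul_ne_zero (mul_ne_zero (Nat.cast_ne_zero.2 (by omega)) (pow_ne_zero _ hζ0)) hlam

/-- If `x₀²` divides `a^n - b^n` then `a` and `b` vanish on `x₀ = 0`. -/
lemma step2 {n : ℕ} (hn : 1 ≤ n) {a b : Fin 3 → ℂ} (hab : ∀ ζ : ℂ, ζ ^ n = 1 → ∃ j, a j ≠ ζ * b j)
    (h : X 0 ^ 2 ∣ lin a ^ n - lin b ^ n) : a 1 = 0 ∧ a 2 = 0 ∧ b 1 = 0 ∧ b 2 = 0 := by
  obtain ⟨ζ, κ, K, h1, h2, hκ, hK⟩ := step hn hab ((dvd_pow_self _ two_ne_zero).trans h)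
  rw [hK, sq, mul_dvd_mul_iff_left (X_ne_zero 0)] at h
  have h3 : ∀ y z : ℂ, b 1 * y + b 2 * z = 0 := by
    intro y z
    have := eval_of_dvd h ![0, y, z] (by simp)
    simp only [map_add, map_mul, map_pow, eval_lin, val, eval_C, eval_X] at this
    simp at this
    rcases this with h | h
    · exact absurd h hκ
    · exact h.1
  have hb1 := h3 1 0
  have hb2 := h3 0 1
  simp at hb1 hb2
  exact ⟨by rw [h1, hb1, mul_zero], by rw [h2, hb2, mul_zero], hb1, hb2⟩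

lemma two_zero {p1 p2 y1 z1 y2 z2 : ℂ} (h1 : p1 * y1 + p2 * z1 = 0) (h2 : p1 * y2 + p2 * z2 = 0)
    (hd : y1 * z2 - y2 * z1 ≠ 0) : p1 = 0 ∧ p2 = 0 := by
  constructor
  · have : p1 * (y1 * z2 - y2 * z1) = 0 := by linear_combination z2 * h1 - z1 * h2
    exact (mul_eq_zero.1 this).resolve_right hd
  · have : p2 * (y1 * z2 - y2 * z1) = 0 := by linear_combination y1 * h2 - y2 * h1
    exact (mul_eq_zero.1 this).resolve_right hd

lemma pigeon {p1 p2 q1 q2 y1 z1 y2 z2 y3 z3 : ℂ}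
    (h1 : p1 * y1 + p2 * z1 = 0 ∨ q1 * y1 + q2 * z1 = 0)
    (h2 : p1 * y2 + p2 * z2 = 0 ∨ q1 * y2 + q2 * z2 = 0)
    (h3 : p1 * y3 + p2 * z3 = 0 ∨ q1 * y3 + q2 * z3 = 0)
    (h12 : y1 * z2 - y2 * z1 ≠ 0) (h13 : y1 * z3 - y3 * z1 ≠ 0) (h23 : y2 * z3 - y3 * z2 ≠ 0) :
    (p1 = 0 ∧ p2 = 0) ∨ (q1 = 0 ∧ q2 = 0) := by
  rcases h1 with h1 | h1 <;> rcases h2 with h2 | h2 <;> rcases h3 with h3 | h3
  · exact Or.inl (two_zero h1 h2 h12)
  · exact Or.inl (two_zero h1 h2 h12)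
  · exact Or.inl (two_zero h1 h3 h13)
  · exact Or.inr (two_zero h2 h3 h23)
  · exact Or.inl (two_zero h2 h3 h23)
  · exact Or.inr (two_zero h1 h3 h13)
  · exact Or.inr (two_zero h1 h2 h12)
  · exact Or.inr (two_zero h1 h2 h12)

/-- Four linear forms without common zero are not all proportional on `x₀ = 0`. -/
lemma rank_contra {a b c d : Fin 3 → ℂ}
    (hinj : ∀ v, val a v = 0 → val b v = 0 → val c v = 0 → val d v = 0 → v = 0)
    (p1 p2 : ℂ) (ha : ∃ t, a 1 = t * p1 ∧ a 2 = t * p2) (hb : ∃ t, b 1 = t * p1 ∧ b 2 = t * p2)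
    (hc : ∃ t, c 1 = t * p1 ∧ c 2 = t * p2) (hd : ∃ t, d 1 = t * p1 ∧ d 2 = t * p2) : False := by
  have key : ∀ y z : ℂ, p1 * y + p2 * z = 0 → y = 0 ∧ z = 0 := by
    intro y z h
    have hval : ∀ x : Fin 3 → ℂ, (∃ t, x 1 = t * p1 ∧ x 2 = t * p2) → val x ![0, y, z] = 0 := by
      rintro x ⟨t, h1, h2⟩
      simp only [val, h1, h2]
      simp
      linear_combination t * h
    have := hinj ![0, y, z] (hval a ha) (hval b hb) (hval c hc) (hval d hd)
    exact ⟨by simpa using congrFun this 1, by simpa using congrFun this 2⟩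
  have h1 := key p2 (-p1) (by ring)
  have hp2 : p2 = 0 := h1.1
  have hp1 : p1 = 0 := by simpa using h1.2
  have h2 := key 1 0 (by rw [hp1, hp2]; ring)
  exact one_ne_zero h2.1

/-- The obstruction: the pencil of `Q_n` restricted to a plane cannot look near the double line
`x₀ = 0` as in our example. -/
theorem core {n : ℕ} (hn : 1 ≤ n) {a b c d : Fin 3 → ℂ}
    (hinj : ∀ v, val a v = 0 → val b v = 0 → val c v = 0 → val d v = 0 → v = 0)
    (hab : ∀ ζ : ℂ, ζ ^ n = 1 → ∃ j, a j ≠ ζ * b j)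
    (hcd : ∀ ζ : ℂ, ζ ^ n = 1 → ∃ j, c j ≠ ζ * d j)
    {R : MvPolynomial (Fin 3) ℂ}
    (hR : (lin a ^ n - lin b ^ n) * (lin c ^ n - lin d ^ n) = X 0 ^ 2 * R)
    (hR1 : eval ![0, 3, 5] R = 0) (hR2 : eval ![0, 3, -1] R = 0) (hR3 : eval ![0, 1, -5] R = 0)
    (hS1 : eval ![0, 1, 0] ((lin a ^ n - lin c ^ n) * (lin b ^ n - lin d ^ n)) = 0)
    (hS2 : eval ![0, 0, 1] ((lin a ^ n - lin c ^ n) * (lin b ^ n - lin d ^ n)) = 0)
    (hS3 : eval ![0, 1, -1] ((lin a ^ n - lin c ^ n) * (lin b ^ n - lin d ^ n)) = 0) : False := by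
  have hn0 : n ≠ 0 := by omega
  have hX : Prime (X 0 : MvPolynomial (Fin 3) ℂ) := X_prime
  have hdvd : X 0 ^ 2 ∣ (lin a ^ n - lin b ^ n) * (lin c ^ n - lin d ^ n) := ⟨R, hR⟩
  by_cases h1 : X 0 ∣ lin a ^ n - lin b ^ n
  · by_cases h2 : X 0 ∣ lin c ^ n - lin d ^ n
    · -- one simple factor in each
      obtain ⟨ζ, κ, K, ha1, ha2, hκ, hK⟩ := step hn hab h1
      obtain ⟨ξ, μ, L, hc1, hc2, hμ, hL⟩ := step hn hcd h2
      have hR' : R = (C κ * lin b ^ (n - 1) + X 0 * K) * (C μ * lin d ^ (n - 1) + X 0 * L) := by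
        rw [hK, hL] at hR
        have h0 : (X 0 : MvPolynomial (Fin 3) ℂ) ^ 2 ≠ 0 := pow_ne_zero 2 (X_ne_zero 0)
        apply mul_left_cancel₀ h0
        rw [← hR]
        ring
      have hz : ∀ y z : ℂ, eval ![0, y, z] R = 0 → b 1 * y + b 2 * z = 0 ∨ d 1 * y + d 2 * z = 0 := by
        intro y z h
        rw [hR'] at h
        simp only [map_add, map_mul, map_pow, eval_lin, val, eval_C, eval_X] at h
        simp at h
        rcases h with (h | h) | (h | h)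
        · exact absurd h hκ
        · exact Or.inl h.1
        · exact absurd h hμ
        · exact Or.inr h.1
      rcases pigeon (hz 3 5 hR1) (hz 3 (-1) hR2) (hz 1 (-5) hR3) (by norm_num) (by norm_num)
        (by norm_num) with h | h
      · exact rank_contra hinj (d 1) (d 2) ⟨0, by rw [ha1, h.1]; ring, by rw [ha2, h.2]; ring⟩
          ⟨0, by rw [h.1]; ring, by rw [h.2]; ring⟩ ⟨ξ, hc1, hc2⟩ ⟨1, by ring, by ring⟩
      · exact rank_contra hinj (b 1) (b 2) ⟨ζ, ha1, ha2⟩ ⟨1, by ring, by ring⟩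
          ⟨0, by rw [hc1, h.1]; ring, by rw [hc2, h.2]; ring⟩
          ⟨0, by rw [h.1]; ring, by rw [h.2]; ring⟩
    · -- the first one is divisible by the square
      rw [mul_comm] at hdvd
      obtain ⟨ha1, ha2, hb1, hb2⟩ := step2 hn hab (hX.pow_dvd_of_dvd_mul_left 2 h2 hdvd)
      have hz : ∀ y z : ℂ,
          eval ![0, y, z] ((lin a ^ n - lin c ^ n) * (lin b ^ n - lin d ^ n)) = 0 →
          c 1 * y + c 2 * z = 0 ∨ d 1 * y + d 2 * z = 0 := by
        intro y z h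
        simp only [map_mul, map_sub, map_pow, eval_lin, val, ha1, ha2, hb1, hb2] at h
        simp [hn0] at h
        exact h
      rcases pigeon (hz 1 0 hS1) (hz 0 1 hS2) (hz 1 (-1) hS3) (by norm_num) (by norm_num)
        (by norm_num) with h | h
      · exact rank_contra hinj (d 1) (d 2) ⟨0, by rw [ha1]; ring, by rw [ha2]; ring⟩
          ⟨0, by rw [hb1]; ring, by rw [hb2]; ring⟩ ⟨0, by rw [h.1]; ring, by rw [h.2]; ring⟩
          ⟨1, by ring, by ring⟩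
      · exact rank_contra hinj (c 1) (c 2) ⟨0, by rw [ha1]; ring, by rw [ha2]; ring⟩
          ⟨0, by rw [hb1]; ring, by rw [hb2]; ring⟩ ⟨1, by ring, by ring⟩
          ⟨0, by rw [h.1]; ring, by rw [h.2]; ring⟩
  · obtain ⟨hc1, hc2, hd1, hd2⟩ := step2 hn hcd (hX.pow_dvd_of_dvd_mul_left 2 h1 hdvd)
    have hz : ∀ y z : ℂ,
        eval ![0, y, z] ((lin a ^ n - lin c ^ n) * (lin b ^ n - lin d ^ n)) = 0 →
        a 1 * y + a 2 * z = 0 ∨ b 1 * y + b 2 * z = 0 := by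
      intro y z h
      simp only [map_mul, map_sub, map_pow, eval_lin, val, hc1, hc2, hd1, hd2] at h
      simp [hn0] at h
      exact h
    rcases pigeon (hz 1 0 hS1) (hz 0 1 hS2) (hz 1 (-1) hS3) (by norm_num) (by norm_num)
      (by norm_num) with h | h
    · exact rank_contra hinj (b 1) (b 2) ⟨0, by rw [h.1]; ring, by rw [h.2]; ring⟩
        ⟨1, by ring, by ring⟩ ⟨0, by rw [hc1]; ring, by rw [hc2]; ring⟩
        ⟨0, by rw [hd1]; ring, by rw [hd2]; ring⟩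
    · exact rank_contra hinj (a 1) (a 2) ⟨1, by ring, by ring⟩
        ⟨0, by rw [h.1]; ring, by rw [h.2]; ring⟩ ⟨0, by rw [hc1]; ring, by rw [hc2]; ring⟩
        ⟨0, by rw [hd1]; ring, by rw [hd2]; ring⟩

end Pool.Agent.H284_heavy
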