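import Pool.Agent.H284_heavy.Core

/-!
# Multinets in the projective plane and multinets induced from `Q_n`

Definitions for the question on heavy multinets. Points and lines of the complex projective plane
are given by nonzero vectors of `ℂ³`.
-/

set_option autoImplicit false

open MvPolynomial

namespace Pool.Agent.H284_heavy

/-- The point `v` lies on the line `a` (the line `a₀ x + a₁ y + a₂ z = 0`). -/
def On (v a : Fin 3 → ℂ) : Prop := a 0 * v 0 + a 1 * v 1 + a 2 * v 2 = 0

/-- Lines with multiplicities, divided into `k` blocks. -/
structure MultiArrangement (k N : ℕ) where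
  /-- the coefficients of the equation of the line `s` -/
  line : Fin N → Fin 3 → ℂ
  /-- the block of the line `s` -/
  block : Fin N → Fin k
  /-- the multiplicity of the line `s` -/
  mult : Fin N → ℕ

variable {k N : ℕ}

/-- The completely reducible form of the block `i`: the product of its lines, with
multiplicities. -/
noncomputable def fiber (M : MultiArrangement k N) (i : Fin k) : MvPolynomial (Fin 3) ℂ :=
  ∏ s ∈ Finset.univ.filter (fun s => M.block s = i), lin (M.line s) ^ M.mult s

/-- Base points: the points that lie on lines of two different blocks. -/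
def IsBase (M : MultiArrangement k N) (v : Fin 3 → ℂ) : Prop :=
  v ≠ 0 ∧ ∃ s t, M.block s ≠ M.block t ∧ On v (M.line s) ∧ On v (M.line t)

open Classical in
/-- The sum of the multiplicities of the lines of the block `i` through the point `v`. -/
noncomputable def weight (M : MultiArrangement k N) (v : Fin 3 → ℂ) (i : Fin k) : ℕ :=
  ∑ s ∈ Finset.univ.filter (fun s => M.block s = i ∧ On v (M.line s)), M.mult s

/-- Two lines of one block that meet in a point that is not a base point. -/
def Adjacent (M : MultiArrangement k N) (s t : Fin N) : Prop :=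
  M.block s = M.block t ∧ ∃ v, v ≠ 0 ∧ On v (M.line s) ∧ On v (M.line t) ∧ ¬ IsBase M v

/-- A `(k, d)`-multinet (Falk and Yuzvinsky): `k ≥ 3` blocks of pairwise different lines with
positive multiplicities, the multiplicities in each block sum to `d`, all blocks have the
same weight at every base point, and any two lines of one block are connected by a chain of lines
of this block in which consecutive lines meet outside the base. -/
structure IsMultinet (k d : ℕ) {N : ℕ} (M : MultiArrangement k N) : Prop where
  three_le : 3 ≤ k
  distinct : ∀ s t, s ≠ t → LinearIndependent ℂ ![M.line s, M.line t]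
  mult_pos : ∀ s, 1 ≤ M.mult s
  degree : ∀ i, ∑ s ∈ Finset.univ.filter (fun s => M.block s = i), M.mult s = d
  balanced : ∀ v, IsBase M v → ∀ i j, weight M v i = weight M v j
  connected : ∀ s t, M.block s = M.block t → Relation.ReflTransGen (Adjacent M) s t

/-- The blocks are fibers of a pencil of degree `d`: a two-dimensional space of forms of degree `d`
without common factor that vanish simultaneously exactly at the base points. -/
structure IsPencilOfBlocks (d : ℕ) (M : MultiArrangement k N)
    (W : Submodule ℂ (MvPolynomial (Fin 3) ℂ)) : Prop where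
  finrank : Module.finrank ℂ W = 2
  homogeneous : ∀ P ∈ W, P.IsHomogeneous d
  fiber_mem : ∀ i, fiber M i ∈ W
  no_fixed : ∀ D, (∀ P ∈ W, D ∣ P) → IsUnit D
  base : ∀ v, v ≠ 0 → (IsBase M v ↔ ∀ P ∈ W, eval v P = 0)

/-- A multinet is heavy if some line has multiplicity greater than one. -/
def IsHeavy (M : MultiArrangement k N) : Prop := ∃ s, 1 < M.mult s

/-- The three products of `2 n` planes of `Q_n`, with the four coordinates of `ℂ⁴` replaced by four
linear forms `u 0, ..., u 3` on `ℂ³`, that is, restricted to the plane `H` parametrised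
by `u`. -/
noncomputable def QForm (n : ℕ) (u : Fin 4 → Fin 3 → ℂ) : Fin 3 → MvPolynomial (Fin 3) ℂ :=
  ![(lin (u 0) ^ n - lin (u 1) ^ n) * (lin (u 2) ^ n - lin (u 3) ^ n),
    (lin (u 0) ^ n - lin (u 2) ^ n) * (lin (u 1) ^ n - lin (u 3) ^ n),
    (lin (u 0) ^ n - lin (u 3) ^ n) * (lin (u 1) ^ n - lin (u 2) ^ n)]

/-- The blocks of `M` are induced from `Q_n`: for some plane `H` of `ℙ³`, parametrised by the
injective map `ℂ³ → ℂ⁴` with the four coordinates `u 0, ..., u 3`, which is none of the `6 n` planes
`x_a = ζ x_b` (`ζⁿ = 1`) of `Q_n`, the restrictions of the three products of `Q_n` to `H` are,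
up to nonzero scalars and the order, the three block forms of `M` times a common factor `D`. -/
def InducedFrom (n : ℕ) (M : MultiArrangement 3 N) : Prop :=
  ∃ (u : Fin 4 → Fin 3 → ℂ) (D : MvPolynomial (Fin 3) ℂ) (c : Fin 3 → ℂ)
    (σ : Equiv.Perm (Fin 3)),
    (∀ v, (∀ a, On v (u a)) → v = 0) ∧
    (∀ a b, a ≠ b → ∀ ζ : ℂ, ζ ^ n = 1 → u a ≠ ζ • u b) ∧
    (∀ i, c i ≠ 0) ∧ ∀ i, QForm n u i = C (c i) * D * fiber M (σ i)

end Pool.Agent.H284_heavy
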