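import Pool.Agent.H284_heavy.Defs

/-!
# A heavy multinet with one double line

The 17 lines of the example, with integer coefficients.
-/

set_option autoImplicit false

open MvPolynomial

namespace Pool.Agent.H284_heavy

/-- The coefficients of the 17 lines. -/
def L : Fin 17 → Fin 3 → ℤ :=
  ![![1, 0, 0], ![-60, -5, 3], ![60, -5, 3], ![0, 1, 3], ![0, 5, 1],
    ![15, 1, 0], ![-15, 1, 0], ![30, 0, 1], ![-30, 0, 1], ![4, 1, 1], ![-4, 1, 1],
    ![6, 1, 0], ![-6, 1, 0], ![5, 0, 1], ![-5, 0, 1], ![60, 1, 1], ![-60, 1, 1]]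

/-- The blocks. -/
def B : Fin 17 → Fin 3 := ![0, 0, 0, 0, 0, 1, 1, 1, 1, 1, 1, 2, 2, 2, 2, 2, 2]

/-- The multiplicities. -/
def m : Fin 17 → ℕ := ![2, 1, 1, 1, 1, 1, 1, 1, 1, 1, 1, 1, 1, 1, 1, 1, 1]

/-- The example. -/
noncomputable def M : MultiArrangement 3 17 where
  line s j := (L s j : ℂ)
  block := B
  mult := m

/-- Cross product. -/
def cr {R : Type} [Ring R] (a b : Fin 3 → R) : Fin 3 → R :=
  ![a 1 * b 2 - a 2 * b 1, a 2 * b 0 - a 0 * b 2, a 0 * b 1 - a 1 * b 0]

/-- Determinant of three lines. -/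
def dt (s t r : Fin 17) : ℤ :=
  L r 0 * cr (L s) (L t) 0 + L r 1 * cr (L s) (L t) 1 + L r 2 * cr (L s) (L t) 2

/-- Weights in the integer model. -/
def W (s t : Fin 17) (i : Fin 3) : ℕ :=
  ∑ r ∈ Finset.univ.filter (fun r => B r = i ∧ dt s t r = 0), m r

/-- Adjacency in the integer model. -/
def adj (s t : Fin 17) : Prop := B s = B t ∧ s ≠ t ∧ ∀ r, B r ≠ B s → dt s t r ≠ 0

instance (s t : Fin 17) : Decidable (adj s t) := by unfold adj; infer_instance

lemma dist_dec : ∀ s t : Fin 17, s ≠ t →
    cr (L s) (L t) 0 ≠ 0 ∨ cr (L s) (L t) 1 ≠ 0 ∨ cr (L s) (L t) 2 ≠ 0 := by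
  decide +kernel

lemma weight_dec : ∀ s t : Fin 17, B s ≠ B t → ∀ i j, W s t i = W s t j := by
  decide +kernel

lemma adj_dec : ∀ s t : Fin 17, B s = B t → s = t ∨ adj s t ∨ ∃ r, adj s r ∧ adj r t := by
  decide +kernel

lemma deg_dec : ∀ i : Fin 3, ∑ s ∈ Finset.univ.filter (fun s => B s = i), m s = 6 := by
  decide +kernel

lemma m_pos : ∀ s, 1 ≤ m s := by decide +kernel

lemma cr_cast (s t : Fin 17) (j : Fin 3) :
    cr (M.line s) (M.line t) j = ((cr (L s) (L t) j : ℤ) : ℂ) := by
  fin_cases j <;> simp [cr, M]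

lemma cr_ne {s t : Fin 17} (h : s ≠ t) : cr (M.line s) (M.line t) ≠ 0 := by
  intro h0
  rcases dist_dec s t h with h1 | h1 | h1
  · exact h1 (by have := congrFun h0 0; rw [cr_cast, Pi.zero_apply] at this; exact_mod_cast this)
  · exact h1 (by have := congrFun h0 1; rw [cr_cast, Pi.zero_apply] at this; exact_mod_cast this)
  · exact h1 (by have := congrFun h0 2; rw [cr_cast, Pi.zero_apply] at this; exact_mod_cast this)

lemma on_cr {a b : Fin 3 → ℂ} : On (cr a b) a ∧ On (cr a b) b := by
  constructor <;> · simp only [On, cr]; simp; ring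

lemma parallel {a b v : Fin 3 → ℂ} (hv : v ≠ 0) (ha : On v a) (hb : On v b) (hw : cr a b ≠ 0) :
    ∃ c : ℂ, c ≠ 0 ∧ ∀ j, cr a b j = c * v j := by
  unfold On at ha hb
  have e01 : v 0 * cr a b 1 = v 1 * cr a b 0 := by
    simp only [cr]; simp; linear_combination a 2 * hb - b 2 * ha
  have e02 : v 0 * cr a b 2 = v 2 * cr a b 0 := by
    simp only [cr]; simp; linear_combination b 1 * ha - a 1 * hb
  have e12 : v 1 * cr a b 2 = v 2 * cr a b 1 := by
    simp only [cr]; simp; linear_combination a 0 * hb - b 0 * ha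
  have hne : ∀ c : ℂ, (∀ j, cr a b j = c * v j) → c ≠ 0 := by
    rintro c hc rfl
    exact hw (funext fun j => by rw [hc j]; simp)
  by_cases h0 : v 0 = 0
  · by_cases h1 : v 1 = 0
    · have h2 : v 2 ≠ 0 := fun h2 => hv (funext fun j => by fin_cases j <;> assumption)
      have key : ∀ j, cr a b j = cr a b 2 / v 2 * v j := by
        intro j
        fin_cases j
        · change cr a b 0 = cr a b 2 / v 2 * v 0
          field_simp
          linear_combination -e02
        · change cr a b 1 = cr a b 2 / v 2 * v 1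
          field_simp
          linear_combination -e12
        · change cr a b 2 = cr a b 2 / v 2 * v 2
          field_simp
      exact ⟨_, hne _ key, key⟩
    · have key : ∀ j, cr a b j = cr a b 1 / v 1 * v j := by
        intro j
        fin_cases j
        · change cr a b 0 = cr a b 1 / v 1 * v 0
          field_simp
          linear_combination -e01
        · change cr a b 1 = cr a b 1 / v 1 * v 1
          field_simp
        · change cr a b 2 = cr a b 1 / v 1 * v 2
          field_simp
          linear_combination e12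
      exact ⟨_, hne _ key, key⟩
  · have key : ∀ j, cr a b j = cr a b 0 / v 0 * v j := by
      intro j
      fin_cases j
      · change cr a b 0 = cr a b 0 / v 0 * v 0
        field_simp
      · change cr a b 1 = cr a b 0 / v 0 * v 1
        field_simp
        linear_combination e01
      · change cr a b 2 = cr a b 0 / v 0 * v 2
        field_simp
        linear_combination e02
    exact ⟨_, hne _ key, key⟩

lemma on_iff {s t : Fin 17} (hst : s ≠ t) {v : Fin 3 → ℂ} (hv : v ≠ 0) (hs : On v (M.line s))
    (ht : On v (M.line t)) (r : Fin 17) : On v (M.line r) ↔ dt s t r = 0 := by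
  obtain ⟨c, hc, h⟩ := parallel hv hs ht (cr_ne hst)
  have h1 : ((dt s t r : ℤ) : ℂ) = c * (M.line r 0 * v 0 + M.line r 1 * v 1 + M.line r 2 * v 2) := by
    have e0 := h 0
    have e1 := h 1
    have e2 := h 2
    rw [cr_cast] at e0 e1 e2
    unfold dt
    push_cast
    rw [e0, e1, e2]
    simp only [M]
    ring
  unfold On
  constructor
  · intro h2
    rw [h2, mul_zero] at h1
    exact_mod_cast h1
  · intro h2
    rw [h2, Int.cast_zero] at h1
    exact (mul_eq_zero.1 h1.symm).resolve_left hc

lemma block_ne {s t : Fin 17} (h : B s ≠ B t) : s ≠ t := fun e => h (by rw [e])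

lemma weight_eq {s t : Fin 17} (hst : s ≠ t) {v : Fin 3 → ℂ} (hv : v ≠ 0)
    (hs : On v (M.line s)) (ht : On v (M.line t)) (i : Fin 3) : weight M v i = W s t i := by
  classical
  unfold weight W
  refine Finset.sum_congr ?_ fun _ _ => rfl
  ext r
  simp only [Finset.mem_filter, Finset.mem_univ, true_and]
  exact and_congr_right fun _ => on_iff hst hv hs ht r

lemma adjacent_of_adj {s t : Fin 17} (h : adj s t) : Adjacent M s t := by
  obtain ⟨h1, h2, h3⟩ := h
  refine ⟨h1, cr (M.line s) (M.line t), cr_ne h2, on_cr.1, on_cr.2, ?_⟩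
  rintro ⟨hv, p, q, hpq, hp, hq⟩
  have hpq' : B p ≠ B q := hpq
  have key : ∀ r, On (cr (M.line s) (M.line t)) (M.line r) → B r = B s := by
    intro r hr
    by_contra hne
    exact h3 r hne ((on_iff h2 hv on_cr.1 on_cr.2 r).1 hr)
  exact hpq' ((key p hp).trans (key q hq).symm)

lemma lin_indep {s t : Fin 17} (h : s ≠ t) : LinearIndependent ℂ ![M.line s, M.line t] := by
  rw [LinearIndependent.pair_iff]
  intro x y hxy
  have h0 := congrFun hxy 0
  have h1 := congrFun hxy 1
  have h2 := congrFun hxy 2
  simp only [Pi.add_apply, Pi.smul_apply, smul_eq_mul, Pi.zero_apply] at h0 h1 h2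
  have hw := cr_ne h
  set a := M.line s
  set b := M.line t
  have key : ∀ j, x * cr a b j = 0 ∧ y * cr a b j = 0 := by
    intro j
    fin_cases j
    · constructor
      · change x * (a 1 * b 2 - a 2 * b 1) = 0
        linear_combination b 2 * h1 - b 1 * h2
      · change y * (a 1 * b 2 - a 2 * b 1) = 0
        linear_combination a 1 * h2 - a 2 * h1
    · constructor
      · change x * (a 2 * b 0 - a 0 * b 2) = 0
        linear_combination b 0 * h2 - b 2 * h0
      · change y * (a 2 * b 0 - a 0 * b 2) = 0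
        linear_combination a 2 * h0 - a 0 * h2
    · constructor
      · change x * (a 0 * b 1 - a 1 * b 0) = 0
        linear_combination b 1 * h0 - b 0 * h1
      · change y * (a 0 * b 1 - a 1 * b 0) = 0
        linear_combination a 0 * h1 - a 1 * h0
  constructor
  · by_contra hx
    exact hw (funext fun j => (mul_eq_zero.1 (key j).1).resolve_left hx)
  · by_contra hy
    exact hw (funext fun j => (mul_eq_zero.1 (key j).2).resolve_left hy)

theorem isMultinet : IsMultinet 3 6 M where
  three_le := le_rfl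
  distinct _ _ h := lin_indep h
  mult_pos := m_pos
  degree := deg_dec
  balanced := by
    rintro v ⟨hv, s, t, hst, hs, ht⟩ i j
    have hst' : B s ≠ B t := hst
    rw [weight_eq (block_ne hst') hv hs ht, weight_eq (block_ne hst') hv hs ht]
    exact weight_dec s t hst' i j
  connected := by
    intro s t hst
    rcases adj_dec s t hst with h | h | ⟨r, h1, h2⟩
    · rw [h]
    · exact Relation.ReflTransGen.single (adjacent_of_adj h)
    · exact (Relation.ReflTransGen.single (adjacent_of_adj h1)).tail (adjacent_of_adj h2)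

end Pool.Agent.H284_heavy
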