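import Pool.Agent.H284_heavy.Ceva

/-!
# The multinet of a pencil of Ceva type

The definition of a multinet through pencils, and its verification for the example.
-/

set_option autoImplicit false

open MvPolynomial

namespace Pool.Agent.H284_heavy

/-- `M` is the `(k, d)`-multinet of the pencil `W` (a two-dimensional space of forms of degree `d` in
three variables), and `W` is of Ceva type: there is no fixed component, there are at
least three completely reducible fibers, and no reduced fiber has components that meet only in
the base (if a squarefree member of `W` is a product of two forms of positive degree, then the two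
curves meet in a point where some member of `W` does not vanish). The blocks of `M` are all
completely reducible fibers of `W`, with the exponents as multiplicities. -/
structure IsCevaMultinet (k d : ℕ) {N : ℕ} (M : MultiArrangement k N)
    (W : Submodule ℂ (MvPolynomial (Fin 3) ℂ)) : Prop where
  finrank : Module.finrank ℂ W = 2
  homogeneous : ∀ P ∈ W, P.IsHomogeneous d
  no_fixed : ∀ D, (∀ P ∈ W, D ∣ P) → IsUnit D
  three_le : 3 ≤ k
  distinct : ∀ s t, s ≠ t → LinearIndependent ℂ ![M.line s, M.line t]
  mult_pos : ∀ s, 1 ≤ M.mult s
  fiber_mem : ∀ i, fiber M i ∈ W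
  all_fibers : ∀ P ∈ W, P ≠ 0 → ∀ (r : ℕ) (a : Fin r → Fin 3 → ℂ) (c : ℂ),
    P = C c * ∏ i, lin (a i) → ∃ (i : Fin k) (b : ℂ), P = C b * fiber M i
  connected : ∀ P ∈ W, Squarefree P → ∀ (A B : MvPolynomial (Fin 3) ℂ) (e f : ℕ),
    A.IsHomogeneous e → B.IsHomogeneous f → 1 ≤ e → 1 ≤ f → P = A * B →
      ∃ v, v ≠ 0 ∧ eval v A = 0 ∧ eval v B = 0 ∧ ∃ Q ∈ W, eval v Q ≠ 0

theorem isCevaMultinet : IsCevaMultinet 3 6 M W0 where
  finrank := isPencil.finrank
  homogeneous := isPencil.homogeneous
  no_fixed := isPencil.no_fixed
  three_le := le_rfl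
  distinct := isMultinet.distinct
  mult_pos := isMultinet.mult_pos
  fiber_mem := isPencil.fiber_mem
  all_fibers _ hP hP0 _ a c h := completely_reducible hP hP0 a c h
  connected := by
    intro P hP hsq A B e f hA hB he hf h
    obtain ⟨α, β, rfl⟩ := mem_W0.1 hP
    have hγ : α + β ≠ 0 := by
      intro h0
      have hβ : β = -α := by linear_combination h0
      have hd : X 0 * X 0 ∣ C α * fiber M 1 + C β * fiber M 2 := by
        refine ⟨C (-7) * C α * R0, ?_⟩
        have hr := relation
        rw [fiber_zero] at hr
        rw [hβ, C_neg]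
        linear_combination C α * hr
      exact X_prime.not_isUnit (hsq _ hd)
    obtain ⟨v, hv, h1, h2, h3⟩ := ceva hγ hA hB he hf h
    refine ⟨v, hv, h1, h2, ?_⟩
    by_contra hcon
    push Not at hcon
    exact h3 ((isPencil.base v hv).2 hcon)

end Pool.Agent.H284_heavy
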