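import Mathlib

/-!
# Lowering the power of `x` in an ideal of two curves

Elementary replacement for Bezout's theorem: two factors of a polynomial in `x` whose low
coefficients are controlled.
-/

set_option autoImplicit false

namespace Pool.Agent.H284_heavy

section

variable {R : Type*} [CommRing R] [IsDomain R]

lemma key {l : R} (hl : Prime l) (h2 : ¬ l ∣ 2)
    {A0 A1 A2 A3 A4 B0 B1 B2 B3 B4 U0 U1 U2 V0 V1 V2 K1 K2 : R}
    (P1 : A0 * B1 + A1 * B0 = 0) (P2 : A0 * B2 + A1 * B1 + A2 * B0 = K1)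
    (P4 : A0 * B4 + A1 * B3 + A2 * B2 + A3 * B1 + A4 * B0 = K2)
    (hK : ¬ l ∣ K1 ∨ (l ^ 2 ∣ K1 ∧ ¬ l ∣ K2))
    (N0 : U0 * A0 + V0 * B0 = 0) (N1 : U0 * A1 + U1 * A0 + V0 * B1 + V1 * B0 = 0)
    (N2 : U0 * A2 + U1 * A1 + U2 * A0 + V0 * B2 + V1 * B1 + V2 * B0 = 0)
    (hA : l ∣ A0) (hB : l ∣ B0) (hA2 : ¬ l ^ 2 ∣ A0) (hB2 : ¬ l ^ 2 ∣ B0) : l ∣ U0 := by
  obtain ⟨a, rfl⟩ := hA
  obtain ⟨b, rfl⟩ := hB
  have hb : ¬ l ∣ b := fun ⟨c, hc⟩ => hB2 ⟨c, by rw [hc]; ring⟩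
  have ha : ¬ l ∣ a := fun ⟨c, hc⟩ => hA2 ⟨c, by rw [hc]; ring⟩
  have hl0 : l ≠ 0 := hl.ne_zero
  have E1 : a * B1 + A1 * b = 0 := by
    apply mul_left_cancel₀ hl0
    linear_combination P1
  have E0 : U0 * a + V0 * b = 0 := by
    apply mul_left_cancel₀ hl0
    linear_combination N0
  have s1 : l ∣ 2 * (U0 * (A1 * b)) := by
    refine ⟨-(U1 * a * b + V1 * b * b), ?_⟩
    linear_combination b * N1 - B1 * E0 + U0 * E1
  have s2 : l ∣ U0 ∨ l ∣ A1 := by
    rcases hl.dvd_or_dvd s1 with h | h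
    · exact absurd h h2
    · rcases hl.dvd_or_dvd h with h | h
      · exact Or.inl h
      · rcases hl.dvd_or_dvd h with h | h
        · exact Or.inr h
        · exact absurd h hb
  rcases s2 with h | h
  · exact h
  rcases hK with hK | ⟨hK1, hK2⟩
  · exfalso
    apply hK
    rw [← P2]
    obtain ⟨c, rfl⟩ := h
    exact ⟨a * B2 + c * B1 + A2 * b, by ring⟩
  · obtain ⟨a1, rfl⟩ := h
    have s3 : l ∣ a * B1 := ⟨-(a1 * b), by linear_combination E1⟩
    have s4 : l ∣ B1 := (hl.dvd_or_dvd s3).resolve_left ha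
    obtain ⟨b1, rfl⟩ := s4
    obtain ⟨k, rfl⟩ := hK1
    have E2 : a * B2 + l * a1 * b1 + A2 * b = l * k := by
      apply mul_left_cancel₀ hl0
      linear_combination P2
    have s5 : l ∣ 2 * (U0 * (A2 * b)) := by
      refine ⟨-(U1 * a1 * b + U2 * a * b + V1 * b1 * b + V2 * b * b) + U0 * (k - a1 * b1), ?_⟩
      linear_combination b * N2 - B2 * E0 + U0 * E2
    rcases hl.dvd_or_dvd s5 with h | h
    · exact absurd h h2
    · rcases hl.dvd_or_dvd h with h | h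
      · exact h
      · rcases hl.dvd_or_dvd h with h | h
        · exfalso
          apply hK2
          rw [← P4]
          obtain ⟨c, rfl⟩ := h
          exact ⟨a * B4 + a1 * B3 + c * B2 + A3 * b1 + A4 * b, by ring⟩
        · exact absurd h hb

lemma reduce {p A B U V m : R} (hp : Prime p) (hm : ¬ p ∣ m) (hAB : A * B = p ^ 2 * m)
    (hUV : U * A + V * B = 0) (hkey : p ∣ A → p ∣ B → ¬ p ^ 2 ∣ A → ¬ p ^ 2 ∣ B → p ∣ U) :
    ∃ A' B' U' V' s t, A = s * A' ∧ B = t * B' ∧ U = t * U' ∧ A' * B' = m ∧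
      U' * A' + V' * B' = 0 ∧ t ∣ p ^ 2 ∧ s ∣ p ^ 2 := by
  have hp0 : p ≠ 0 := hp.ne_zero
  by_cases hB : p ∣ B
  · by_cases hA : p ∣ A
    · obtain ⟨a, rfl⟩ := hA
      obtain ⟨b, rfl⟩ := hB
      have hab : a * b = m := by
        apply mul_left_cancel₀ (pow_ne_zero 2 hp0)
        linear_combination hAB
      have ha : ¬ p ∣ a := fun h => hm (hab ▸ h.mul_right b)
      have hb : ¬ p ∣ b := fun h => hm (hab ▸ h.mul_left a)
      have hA2 : ¬ p ^ 2 ∣ p * a := by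
        rintro ⟨c, hc⟩
        exact ha ⟨c, mul_left_cancel₀ hp0 (by linear_combination hc)⟩
      have hB2 : ¬ p ^ 2 ∣ p * b := by
        rintro ⟨c, hc⟩
        exact hb ⟨c, mul_left_cancel₀ hp0 (by linear_combination hc)⟩
      obtain ⟨u, rfl⟩ := hkey (Dvd.intro _ rfl) (Dvd.intro _ rfl) hA2 hB2
      have h1 : p * u * a + V * b = 0 := by
        apply mul_left_cancel₀ hp0
        linear_combination hUV
      have h2 : p ∣ V := by
        have : p ∣ V * b := ⟨-(u * a), by linear_combination h1⟩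
        exact (hp.dvd_or_dvd this).resolve_right hb
      obtain ⟨v, rfl⟩ := h2
      refine ⟨a, b, u, v, p, p, rfl, rfl, rfl, hab, ?_, dvd_pow_self _ two_ne_zero,
        dvd_pow_self _ two_ne_zero⟩
      apply mul_left_cancel₀ hp0
      linear_combination h1
    · have h1 : p ^ 2 ∣ A * B := ⟨m, hAB⟩
      have h2 : p ^ 2 ∣ B := hp.pow_dvd_of_dvd_mul_left 2 hA h1
      obtain ⟨b, rfl⟩ := h2
      have hab : A * b = m := by
        apply mul_left_cancel₀ (pow_ne_zero 2 hp0)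
        linear_combination hAB
      have h3 : p ^ 2 ∣ A * U := ⟨-(V * b), by linear_combination hUV⟩
      obtain ⟨u, rfl⟩ := hp.pow_dvd_of_dvd_mul_left 2 hA h3
      refine ⟨A, b, u, V, 1, p ^ 2, (one_mul _).symm, rfl, rfl, hab, ?_, dvd_rfl, one_dvd _⟩
      apply mul_left_cancel₀ (pow_ne_zero 2 hp0)
      linear_combination hUV
  · have h1 : p ^ 2 ∣ B * A := ⟨m, by rw [mul_comm]; exact hAB⟩
    have h2 : p ^ 2 ∣ A := hp.pow_dvd_of_dvd_mul_left 2 hB h1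
    obtain ⟨a, rfl⟩ := h2
    have hab : a * B = m := by
      apply mul_left_cancel₀ (pow_ne_zero 2 hp0)
      linear_combination hAB
    have h3 : p ^ 2 ∣ B * V := ⟨-(U * a), by linear_combination hUV⟩
    obtain ⟨v, rfl⟩ := hp.pow_dvd_of_dvd_mul_left 2 hB h3
    refine ⟨a, B, U, v, p ^ 2, 1, rfl, (one_mul _).symm, (one_mul _).symm, hab, ?_, one_dvd _,
      dvd_rfl⟩
    apply mul_left_cancel₀ (pow_ne_zero 2 hp0)
    linear_combination hUV

/-- If `A B = y² z² w² γ` with different primes `y`, `z`, `w` and a unit `γ`, and `U A + V B = 0`,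
then `B` divides `U` as soon as this holds at the primes dividing both. -/
lemma full {y z w γ A B U V : R} (hy : Prime y) (hz : Prime z) (hw : Prime w)
    (hyz : ¬ y ∣ z) (hyw : ¬ y ∣ w) (hzy : ¬ z ∣ y) (hzw : ¬ z ∣ w) (hwy : ¬ w ∣ y)
    (hwz : ¬ w ∣ z) (hγ : IsUnit γ) (hAB : A * B = y ^ 2 * (z ^ 2 * (w ^ 2 * γ)))
    (hUV : U * A + V * B = 0)
    (ky : y ∣ A → y ∣ B → ¬ y ^ 2 ∣ A → ¬ y ^ 2 ∣ B → y ∣ U)
    (kz : z ∣ A → z ∣ B → ¬ z ^ 2 ∣ A → ¬ z ^ 2 ∣ B → z ∣ U)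
    (kw : w ∣ A → w ∣ B → ¬ w ^ 2 ∣ A → ¬ w ^ 2 ∣ B → w ∣ U) : B ∣ U := by
  have nu : ∀ {p : R}, Prime p → ¬ p ∣ γ := fun hp h => hp.not_isUnit (isUnit_of_dvd_unit h hγ)
  have npow : ∀ {p q : R}, Prime p → ¬ p ∣ q → ¬ p ∣ q ^ 2 := fun hp h h' =>
    h (hp.dvd_of_dvd_pow h')
  have nmul : ∀ {p q r : R}, Prime p → ¬ p ∣ q → ¬ p ∣ r → ¬ p ∣ q * r := fun hp h h' h'' =>
    (hp.dvd_or_dvd h'').elim h h'
  obtain ⟨A1, B1, U1, V1, s1, t1, rfl, rfl, rfl, e1, f1, g1, g1'⟩ := reduce hy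
    (nmul hy (npow hy hyz) (nmul hy (npow hy hyw) (nu hy))) hAB hUV ky
  -- transfer of the condition at a prime `q` not dividing `t`, `s`
  have tr : ∀ {q s t a b u : R}, Prime q → ¬ q ∣ t → ¬ q ∣ s →
      (q ∣ s * a → q ∣ t * b → ¬ q ^ 2 ∣ s * a → ¬ q ^ 2 ∣ t * b → q ∣ t * u) →
      (q ∣ a → q ∣ b → ¬ q ^ 2 ∣ a → ¬ q ^ 2 ∣ b → q ∣ u) := by
    intro q s t a b u hq ht hs h h1 h2 h3 h4
    have := h (h1.mul_left s) (h2.mul_left t)
      (fun h5 => h3 (hq.pow_dvd_of_dvd_mul_left 2 hs h5))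
      (fun h5 => h4 (hq.pow_dvd_of_dvd_mul_left 2 ht h5))
    exact (hq.dvd_or_dvd this).resolve_left ht
  have nd : ∀ {p q t : R}, Prime q → ¬ q ∣ p → t ∣ p ^ 2 → ¬ q ∣ t := fun hq h h' h'' =>
    h (hq.dvd_of_dvd_pow (h''.trans h'))
  have kz1 := tr hz (nd hz hzy g1) (nd hz hzy g1') kz
  have kw1 := tr hw (nd hw hwy g1) (nd hw hwy g1') kw
  obtain ⟨A2, B2, U2, V2, s2, t2, rfl, rfl, rfl, e2, f2, g2, g2'⟩ := reduce hz
    (nmul hz (npow hz hzw) (nu hz)) e1 f1 kz1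
  have kw2 := tr hw (nd hw hwz g2) (nd hw hwz g2') kw1
  obtain ⟨A3, B3, U3, V3, s3, t3, rfl, rfl, rfl, e3, f3, g3, g3'⟩ := reduce hw (nu hw) e2 f2 kw2
  have hB3 : IsUnit B3 := isUnit_of_dvd_unit ⟨A3, by rw [mul_comm]; exact e3.symm⟩ hγ
  exact mul_dvd_mul_left t1 (mul_dvd_mul_left t2 (mul_dvd_mul_left t3 hB3.dvd))

open Polynomial in
/-- One step of the descent. -/
lemma descend {A B : Polynomial R} (hB0 : B.coeff 0 ≠ 0)
    {N : ℕ} {U V : Polynomial R} (h : U * A + V * B = Polynomial.X ^ (N + 1))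
    (hd : B.coeff 0 ∣ U.coeff 0) :
    ∃ U' V' : Polynomial R, U' * A + V' * B = Polynomial.X ^ N := by
  obtain ⟨T, hT⟩ := hd
  have h0 : U.coeff 0 * A.coeff 0 + V.coeff 0 * B.coeff 0 = 0 := by
    have := congrArg (fun q => Polynomial.coeff q 0) h
    simpa [Polynomial.mul_coeff_zero] using this
  have hV : V.coeff 0 = -(A.coeff 0 * T) := by
    apply mul_left_cancel₀ hB0
    rw [hT] at h0
    linear_combination h0
  have d1 : Polynomial.X ∣ U - Polynomial.C T * B := by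
    rw [Polynomial.X_dvd_iff]
    simp [hT, Polynomial.mul_coeff_zero]
    ring
  have d2 : Polynomial.X ∣ V + Polynomial.C T * A := by
    rw [Polynomial.X_dvd_iff]
    simp [hV, Polynomial.mul_coeff_zero]
    ring
  obtain ⟨U', hU'⟩ := d1
  obtain ⟨V', hV'⟩ := d2
  refine ⟨U', V', ?_⟩
  apply mul_left_cancel₀ (Polynomial.X_ne_zero (R := R))
  calc Polynomial.X * (U' * A + V' * B)
      = (Polynomial.X * U') * A + (Polynomial.X * V') * B := by ring
    _ = (U - Polynomial.C T * B) * A + (V + Polynomial.C T * A) * B := by rw [← hU', ← hV']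
    _ = U * A + V * B := by ring
    _ = Polynomial.X * Polynomial.X ^ N := by rw [h]; ring

/-- The descent: a power of `X` in the ideal `(A, B)` can be lowered to `X²`. -/
theorem descent {y z w γ K1 K2 : R} (hy : Prime y) (hz : Prime z) (hw : Prime w)
    (hyz : ¬ y ∣ z) (hyw : ¬ y ∣ w) (hzy : ¬ z ∣ y) (hzw : ¬ z ∣ w) (hwy : ¬ w ∣ y)
    (hwz : ¬ w ∣ z) (hγ : IsUnit γ) (h2 : IsUnit (2 : R))
    {A B : Polynomial R} (c0 : (A * B).coeff 0 = y ^ 2 * (z ^ 2 * (w ^ 2 * γ)))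
    (c1 : (A * B).coeff 1 = 0) (c2 : (A * B).coeff 2 = K1) (c4 : (A * B).coeff 4 = K2)
    (hKy : ¬ y ∣ K1 ∨ (y ^ 2 ∣ K1 ∧ ¬ y ∣ K2)) (hKz : ¬ z ∣ K1 ∨ (z ^ 2 ∣ K1 ∧ ¬ z ∣ K2))
    (hKw : ¬ w ∣ K1 ∨ (w ^ 2 ∣ K1 ∧ ¬ w ∣ K2)) :
    ∀ N : ℕ, (∃ U V : Polynomial R, U * A + V * B = Polynomial.X ^ N) →
      ∃ U V : Polynomial R, U * A + V * B = Polynomial.X ^ 2 := by
  have n2 : ∀ {p : R}, Prime p → ¬ p ∣ 2 := fun hp h => hp.not_isUnit (isUnit_of_dvd_unit h h2)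
  have hB0 : B.coeff 0 ≠ 0 := by
    intro h
    rw [Polynomial.mul_coeff_zero, h, mul_zero] at c0
    exact mul_ne_zero (pow_ne_zero 2 hy.ne_zero) (mul_ne_zero (pow_ne_zero 2 hz.ne_zero)
      (mul_ne_zero (pow_ne_zero 2 hw.ne_zero) hγ.ne_zero)) c0.symm
  have P1 : A.coeff 0 * B.coeff 1 + A.coeff 1 * B.coeff 0 = 0 := by
    rw [← c1, Polynomial.mul_coeff_one]
  have P2 : A.coeff 0 * B.coeff 2 + A.coeff 1 * B.coeff 1 + A.coeff 2 * B.coeff 0 = K1 := by
    rw [← c2, Polynomial.coeff_mul, Finset.Nat.sum_antidiagonal_eq_sum_range_succ_mk]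
    simp [Finset.sum_range_succ]
  have P4 : A.coeff 0 * B.coeff 4 + A.coeff 1 * B.coeff 3 + A.coeff 2 * B.coeff 2 +
      A.coeff 3 * B.coeff 1 + A.coeff 4 * B.coeff 0 = K2 := by
    rw [← c4, Polynomial.coeff_mul, Finset.Nat.sum_antidiagonal_eq_sum_range_succ_mk]
    simp [Finset.sum_range_succ]
  intro N
  induction N with
  | zero =>
    rintro ⟨U, V, h⟩
    exact ⟨Polynomial.X ^ 2 * U, Polynomial.X ^ 2 * V, by
      calc Polynomial.X ^ 2 * U * A + Polynomial.X ^ 2 * V * B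
          = Polynomial.X ^ 2 * (U * A + V * B) := by ring
        _ = Polynomial.X ^ 2 := by rw [h, pow_zero, mul_one]⟩
  | succ N ih =>
    rintro ⟨U, V, h⟩
    by_cases hN : N + 1 ≤ 2
    · refine ⟨Polynomial.X ^ (2 - (N + 1)) * U, Polynomial.X ^ (2 - (N + 1)) * V, ?_⟩
      calc Polynomial.X ^ (2 - (N + 1)) * U * A + Polynomial.X ^ (2 - (N + 1)) * V * B
          = Polynomial.X ^ (2 - (N + 1)) * (U * A + V * B) := by ring
        _ = Polynomial.X ^ 2 := by rw [h, ← pow_add]; congr 1; omega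
    · apply ih
      apply descend hB0 h
      have N0 : U.coeff 0 * A.coeff 0 + V.coeff 0 * B.coeff 0 = 0 := by
        have := congrArg (fun q => Polynomial.coeff q 0) h
        simpa [Polynomial.mul_coeff_zero] using this
      have N1 : U.coeff 0 * A.coeff 1 + U.coeff 1 * A.coeff 0 + V.coeff 0 * B.coeff 1 +
          V.coeff 1 * B.coeff 0 = 0 := by
        have := congrArg (fun q => Polynomial.coeff q 1) h
        simp only [Polynomial.coeff_add, Polynomial.mul_coeff_one, Polynomial.coeff_X_pow] at this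
        rw [if_neg (by omega)] at this
        linear_combination this
      have N2 : U.coeff 0 * A.coeff 2 + U.coeff 1 * A.coeff 1 + U.coeff 2 * A.coeff 0 +
          V.coeff 0 * B.coeff 2 + V.coeff 1 * B.coeff 1 + V.coeff 2 * B.coeff 0 = 0 := by
        have := congrArg (fun q => Polynomial.coeff q 2) h
        simp only [Polynomial.coeff_add, Polynomial.coeff_mul, Polynomial.coeff_X_pow,
          Finset.Nat.sum_antidiagonal_eq_sum_range_succ_mk] at this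
        rw [if_neg (by omega)] at this
        simp only [Finset.sum_range_succ, Finset.sum_range_zero, zero_add] at this
        simp at this
        linear_combination this
      have hAB : A.coeff 0 * B.coeff 0 = y ^ 2 * (z ^ 2 * (w ^ 2 * γ)) := by
        rw [← c0, Polynomial.mul_coeff_zero]
      exact full hy hz hw hyz hyw hzy hzw hwy hwz hγ hAB N0
        (fun a b c d => key hy (n2 hy) P1 P2 P4 hKy N0 N1 N2 a b c d)
        (fun a b c d => key hz (n2 hz) P1 P2 P4 hKz N0 N1 N2 a b c d)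
        (fun a b c d => key hw (n2 hw) P1 P2 P4 hKw N0 N1 N2 a b c d)

end

end Pool.Agent.H284_heavy
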