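import Pool.Agent.H284_heavy.Example

/-!
# The example is not induced from any `Q_n`, and its pencil
-/

set_option autoImplicit false

open MvPolynomial

namespace Pool.Agent.H284_heavy

/-- The product of the four simple lines of the heavy block. -/
noncomputable def R0 : MvPolynomial (Fin 3) ℂ :=
  lin (M.line 1) * lin (M.line 2) * lin (M.line 3) * lin (M.line 4)

lemma fiber_zero : fiber M 0 = X 0 ^ 2 * R0 := by
  have h : (Finset.univ.filter (fun s => M.block s = 0)) = ({0, 1, 2, 3, 4} : Finset (Fin 17)) := by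
    change Finset.univ.filter (fun s => B s = 0) = _
    decide +kernel
  unfold fiber
  rw [h, Finset.prod_insert (by decide), Finset.prod_insert (by decide),
    Finset.prod_insert (by decide), Finset.prod_insert (by decide), Finset.prod_singleton]
  have m0 : M.mult 0 = 2 := rfl
  have m1 : M.mult 1 = 1 := rfl
  have m2 : M.mult 2 = 1 := rfl
  have m3 : M.mult 3 = 1 := rfl
  have m4 : M.mult 4 = 1 := rfl
  have l0 : lin (M.line 0) = X 0 := by simp [lin, M, L]
  rw [m0, m1, m2, m3, m4, l0, R0]
  ring

lemma fiber_one : fiber M 1 = lin (M.line 5) * lin (M.line 6) * lin (M.line 7) *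
    lin (M.line 8) * lin (M.line 9) * lin (M.line 10) := by
  have h : (Finset.univ.filter (fun s => M.block s = 1)) =
      ({5, 6, 7, 8, 9, 10} : Finset (Fin 17)) := by
    change Finset.univ.filter (fun s => B s = 1) = _
    decide +kernel
  unfold fiber
  rw [h, Finset.prod_insert (by decide), Finset.prod_insert (by decide),
    Finset.prod_insert (by decide), Finset.prod_insert (by decide),
    Finset.prod_insert (by decide), Finset.prod_singleton]
  have m5 : M.mult 5 = 1 := rfl
  have m6 : M.mult 6 = 1 := rfl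
  have m7 : M.mult 7 = 1 := rfl
  have m8 : M.mult 8 = 1 := rfl
  have m9 : M.mult 9 = 1 := rfl
  have m10 : M.mult 10 = 1 := rfl
  rw [m5, m6, m7, m8, m9, m10]
  ring

lemma fiber_two : fiber M 2 = lin (M.line 11) * lin (M.line 12) * lin (M.line 13) *
    lin (M.line 14) * lin (M.line 15) * lin (M.line 16) := by
  have h : (Finset.univ.filter (fun s => M.block s = 2)) =
      ({11, 12, 13, 14, 15, 16} : Finset (Fin 17)) := by
    change Finset.univ.filter (fun s => B s = 2) = _
    decide +kernel
  unfold fiber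
  rw [h, Finset.prod_insert (by decide), Finset.prod_insert (by decide),
    Finset.prod_insert (by decide), Finset.prod_insert (by decide),
    Finset.prod_insert (by decide), Finset.prod_singleton]
  have m5 : M.mult 11 = 1 := rfl
  have m6 : M.mult 12 = 1 := rfl
  have m7 : M.mult 13 = 1 := rfl
  have m8 : M.mult 14 = 1 := rfl
  have m9 : M.mult 15 = 1 := rfl
  have m10 : M.mult 16 = 1 := rfl
  rw [m5, m6, m7, m8, m9, m10]
  ring

/-- The three block forms lie in one pencil. -/
lemma relation : fiber M 1 - fiber M 2 = C (-7) * fiber M 0 := by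
  rw [fiber_zero, fiber_one, fiber_two, R0]
  simp only [lin, M, L]
  simp [map_ofNat]
  ring

lemma eval_fiber_of_on {v : Fin 3 → ℂ} {i : Fin 3} (s : Fin 17) (hs : B s = i)
    (hv : val (M.line s) v = 0) : eval v (fiber M i) = 0 := by
  unfold fiber
  rw [map_prod]
  refine Finset.prod_eq_zero (i := s) (Finset.mem_filter.2 ⟨Finset.mem_univ s, hs⟩) ?_
  have : M.mult s ≠ 0 := by
    have := m_pos s
    change m s ≠ 0
    omega
  rw [map_pow, eval_lin, hv, zero_pow this]

lemma eval_other {i : Fin 3} (hi : i ≠ 0) :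
    eval ![0, 1, 0] (fiber M i) = 0 ∧ eval ![0, 0, 1] (fiber M i) = 0 ∧
      eval ![0, 1, -1] (fiber M i) = 0 := by
  fin_cases i
  · exact absurd rfl hi
  · exact ⟨eval_fiber_of_on 7 rfl (by simp [val, M, L]),
      eval_fiber_of_on 5 rfl (by simp [val, M, L]), eval_fiber_of_on 9 rfl (by simp [val, M, L])⟩
  · exact ⟨eval_fiber_of_on 13 rfl (by simp [val, M, L]),
      eval_fiber_of_on 11 rfl (by simp [val, M, L]), eval_fiber_of_on 15 rfl (by simp [val, M, L])⟩

lemma eval_R0 : eval ![0, 3, 5] R0 = 0 ∧ eval ![0, 3, -1] R0 = 0 ∧ eval ![0, 1, -5] R0 = 0 := by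
  refine ⟨?_, ?_, ?_⟩ <;> simp [R0, eval_lin, val, M, L] <;> norm_num

/-- The example is not induced from any `Q_n`. -/
theorem not_induced {n : ℕ} (hn : 1 ≤ n) : ¬ InducedFrom n M := by
  rintro ⟨u, D, c, σ, hinj, hpl, hc, h⟩
  have hval : ∀ a v, val (u a) v = 0 → On v (u a) := fun a v h => h
  have hne : ∀ a b, a ≠ b → ∀ ζ : ℂ, ζ ^ n = 1 → ∃ j, u a j ≠ ζ * u b j := by
    intro a b hab ζ hζ
    by_contra hcon
    push Not at hcon
    exact hpl a b hab ζ hζ (funext hcon)
  -- the value of the other products at the three points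
  have hoth : ∀ i, σ i ≠ 0 → eval ![0, 1, 0] (QForm n u i) = 0 ∧ eval ![0, 0, 1] (QForm n u i) = 0 ∧
      eval ![0, 1, -1] (QForm n u i) = 0 := by
    intro i hi
    obtain ⟨e1, e2, e3⟩ := eval_other hi
    rw [h i]
    simp only [map_mul, e1, e2, e3, mul_zero, and_self]
  have hR : ∀ i, σ i = 0 → QForm n u i = X 0 ^ 2 * (C (c i) * D * R0) := by
    intro i hi
    rw [h i, hi, fiber_zero]
    ring
  obtain ⟨r1, r2, r3⟩ := eval_R0
  have hR1 : ∀ i : Fin 3, eval ![0, 3, 5] (C (c i) * D * R0) = 0 := fun i => by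
    rw [map_mul, r1, mul_zero]
  have hR2 : ∀ i : Fin 3, eval ![0, 3, -1] (C (c i) * D * R0) = 0 := fun i => by
    rw [map_mul, r2, mul_zero]
  have hR3 : ∀ i : Fin 3, eval ![0, 1, -5] (C (c i) * D * R0) = 0 := fun i => by
    rw [map_mul, r3, mul_zero]
  have hcase : σ 0 = 0 ∨ σ 1 = 0 ∨ σ 2 = 0 := by
    have h1 := σ.apply_symm_apply 0
    generalize σ.symm 0 = j at h1
    fin_cases j
    · exact Or.inl h1
    · exact Or.inr (Or.inl h1)
    · exact Or.inr (Or.inr h1)
  rcases hcase with h0 | h0 | h0
  · -- the heavy block is the first product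
    obtain ⟨s1, s2, s3⟩ := hoth 1 (fun e => by
      have := σ.injective (h0.trans e.symm)
      exact absurd this (by decide))
    refine core (a := u 0) (b := u 1) (c := u 2) (d := u 3) hn ?_ (hne 0 1 (by decide))
      (hne 2 3 (by decide)) (hR 0 h0) (hR1 0) (hR2 0) (hR3 0) s1 s2 s3
    intro v v0 v1 v2 v3
    exact hinj v (by
      intro a
      fin_cases a
      exacts [v0, v1, v2, v3])
  · -- the heavy block is the second product
    obtain ⟨s1, s2, s3⟩ := hoth 0 (fun e => by
      have := σ.injective (h0.trans e.symm)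
      exact absurd this (by decide))
    refine core (a := u 0) (b := u 2) (c := u 1) (d := u 3) hn ?_ (hne 0 2 (by decide))
      (hne 1 3 (by decide)) (hR 1 h0) (hR1 1) (hR2 1) (hR3 1) s1 s2 s3
    intro v v0 v2 v1 v3
    exact hinj v (by
      intro a
      fin_cases a
      exacts [v0, v1, v2, v3])
  · -- the heavy block is the third product
    obtain ⟨s1, s2, s3⟩ := hoth 0 (fun e => by
      have := σ.injective (h0.trans e.symm)
      exact absurd this (by decide))
    have hneg : ∀ v, eval v (QForm n u 0) = 0 →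
        eval v ((lin (u 0) ^ n - lin (u 1) ^ n) * (lin (u 3) ^ n - lin (u 2) ^ n)) = 0 := by
      intro v hv
      have : (lin (u 0) ^ n - lin (u 1) ^ n) * (lin (u 3) ^ n - lin (u 2) ^ n) =
          -(QForm n u 0) := by
        simp only [QForm, Matrix.cons_val_zero]
        ring
      rw [this, map_neg, hv, neg_zero]
    refine core (a := u 0) (b := u 3) (c := u 1) (d := u 2) hn ?_ (hne 0 3 (by decide))
      (hne 1 2 (by decide)) (hR 2 h0) (hR1 2) (hR2 2) (hR3 2) (hneg _ s1) (hneg _ s2) (hneg _ s3)
    intro v v0 v3 v1 v2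
    exact hinj v (by
      intro a
      fin_cases a
      exacts [v0, v1, v2, v3])

end Pool.Agent.H284_heavy
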