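import Pool.Agent.H284_heavy.Main

/-!
# The pencil of the example
-/

set_option autoImplicit false

open MvPolynomial

namespace Pool.Agent.H284_heavy

lemma val_iff_on {a v : Fin 3 → ℂ} : val a v = 0 ↔ On v a := Iff.rfl

lemma eval_fiber_iff {v : Fin 3 → ℂ} {i : Fin 3} :
    eval v (fiber M i) = 0 ↔ ∃ s, B s = i ∧ On v (M.line s) := by
  constructor
  · intro h
    unfold fiber at h
    rw [map_prod, Finset.prod_eq_zero_iff] at h
    obtain ⟨s, hs, h⟩ := h
    rw [map_pow, eval_lin] at h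
    exact ⟨s, (Finset.mem_filter.1 hs).2, eq_zero_of_pow_eq_zero h⟩
  · rintro ⟨s, hs, h⟩
    exact eval_fiber_of_on s hs h

/-- The pencil of the example. -/
noncomputable def W0 : Submodule ℂ (MvPolynomial (Fin 3) ℂ) :=
  Submodule.span ℂ (Set.range ![fiber M 1, fiber M 2])

lemma mem_W0 {P : MvPolynomial (Fin 3) ℂ} :
    P ∈ W0 ↔ ∃ x y : ℂ, P = C x * fiber M 1 + C y * fiber M 2 := by
  unfold W0
  rw [Matrix.range_cons, Matrix.range_cons, Matrix.range_empty, Set.union_empty,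
    Set.singleton_union, Submodule.mem_span_pair]
  constructor
  · rintro ⟨x, y, rfl⟩
    exact ⟨x, y, by rw [smul_eq_C_mul, smul_eq_C_mul]⟩
  · rintro ⟨x, y, rfl⟩
    exact ⟨x, y, by rw [smul_eq_C_mul, smul_eq_C_mul]⟩

/-- A point with integer coordinates. -/
def pt (p : Fin 3 → ℤ) : Fin 3 → ℂ := fun j => (p j : ℂ)

lemma on_int (p : Fin 3 → ℤ) (s : Fin 17) :
    On (pt p) (M.line s) ↔ L s 0 * p 0 + L s 1 * p 1 + L s 2 * p 2 = 0 := by
  unfold On pt
  simp only [M]
  exact_mod_cast Iff.rfl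

lemma eval_points : eval (pt ![1, -15, 0]) (fiber M 1) = 0 ∧
    eval (pt ![1, -15, 0]) (fiber M 2) ≠ 0 ∧
    eval (pt ![1, -6, 0]) (fiber M 2) = 0 ∧ eval (pt ![1, -6, 0]) (fiber M 1) ≠ 0 := by
  simp only [ne_eq, eval_fiber_iff, on_int]
  decide +kernel

lemma comb_zero {x y : ℂ} (h : C x * fiber M 1 + C y * fiber M 2 = 0) : x = 0 ∧ y = 0 := by
  obtain ⟨h1, h2, h3, h4⟩ := eval_points
  have e1 := congrArg (eval (pt ![1, -15, 0])) h
  have e2 := congrArg (eval (pt ![1, -6, 0])) h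
  simp only [map_add, map_mul, eval_C, h1, h3, mul_zero, zero_add, add_zero, map_zero] at e1 e2
  exact ⟨(mul_eq_zero.1 e2).resolve_right h4, (mul_eq_zero.1 e1).resolve_right h2⟩

lemma lin_homogeneous (a : Fin 3 → ℂ) : (lin a).IsHomogeneous 1 := by
  unfold lin
  exact ((isHomogeneous_C_mul_X _ _).add (isHomogeneous_C_mul_X _ _)).add
    (isHomogeneous_C_mul_X _ _)

lemma fiber_homogeneous (i : Fin 3) : (fiber M i).IsHomogeneous 6 := by
  have h : (fiber M i).IsHomogeneous
      (∑ s ∈ Finset.univ.filter (fun s => M.block s = i), M.mult s) := by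
    unfold fiber
    refine IsHomogeneous.prod _ _ _ fun s _ => ?_
    simpa using (lin_homogeneous (M.line s)).pow (M.mult s)
  have e : ∑ s ∈ Finset.univ.filter (fun s => M.block s = i), M.mult s = 6 := deg_dec i
  rwa [e] at h

lemma lin_ne_zero {a : Fin 3 → ℂ} (ha : a ≠ 0) : lin a ≠ 0 := by
  intro h
  apply ha
  have e : ∀ v, val a v = 0 := fun v => by rw [← eval_lin, h, map_zero]
  funext j
  fin_cases j
  · simpa [val] using e ![1, 0, 0]
  · simpa [val] using e ![0, 1, 0]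
  · simpa [val] using e ![0, 0, 1]

lemma lin_irreducible {a : Fin 3 → ℂ} (ha : a ≠ 0) : Irreducible (lin a) := by
  refine irreducible_of_totalDegree_eq_one ((lin_homogeneous a).totalDegree (lin_ne_zero ha)) ?_
  intro x hx
  rw [isUnit_iff_ne_zero]
  rintro rfl
  apply lin_ne_zero ha
  ext i
  rw [coeff_zero]
  exact zero_dvd_iff.1 (hx i)

lemma line_ne_zero (s : Fin 17) : M.line s ≠ 0 := by
  obtain ⟨t, ht⟩ : ∃ t : Fin 17, s ≠ t := by
    by_cases h : s = 0
    · exact ⟨1, by rw [h]; decide⟩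
    · exact ⟨0, h⟩
  intro h
  apply cr_ne ht
  funext j
  fin_cases j <;> simp [cr, h]

lemma lin_relprime {s t : Fin 17} (h : s ≠ t) : IsRelPrime (lin (M.line s)) (lin (M.line t)) := by
  rw [(lin_irreducible (line_ne_zero s)).isRelPrime_iff_not_dvd]
  rintro ⟨Q, hQ⟩
  have key : ∀ v, val (M.line s) v = 0 → val (M.line t) v = 0 := by
    intro v hv
    rw [← eval_lin, hQ, map_mul, eval_lin, hv, zero_mul]
  apply cr_ne h
  set a := M.line s
  set b := M.line t
  funext j
  fin_cases j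
  · have := key ![0, a 2, -a 1] (by simp [val]; ring)
    simp only [val] at this
    simp at this
    change a 1 * b 2 - a 2 * b 1 = 0
    linear_combination -this
  · have := key ![a 2, 0, -a 0] (by simp [val]; ring)
    simp only [val] at this
    simp at this
    change a 2 * b 0 - a 0 * b 2 = 0
    linear_combination this
  · have := key ![a 1, -a 0, 0] (by simp [val]; ring)
    simp only [val] at this
    simp at this
    change a 0 * b 1 - a 1 * b 0 = 0
    linear_combination -this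

lemma fibers_relprime {i j : Fin 3} (h : i ≠ j) : IsRelPrime (fiber M i) (fiber M j) := by
  unfold fiber
  refine IsRelPrime.prod_left fun s hs => IsRelPrime.prod_right fun t ht => ?_
  refine IsRelPrime.pow_left (IsRelPrime.pow_right (lin_relprime ?_))
  rintro rfl
  exact h ((Finset.mem_filter.1 hs).2.symm.trans (Finset.mem_filter.1 ht).2)

lemma fiber_mem_W0 (i : Fin 3) : fiber M i ∈ W0 := by
  rw [mem_W0]
  fin_cases i
  · refine ⟨-1 / 7, 1 / 7, ?_⟩
    have h := relation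
    have h7 : (C (-7 : ℂ) : MvPolynomial (Fin 3) ℂ) * C (-1 / 7) = 1 := by
      rw [← C_mul]; norm_num
    have e : (C (1 / 7 : ℂ) : MvPolynomial (Fin 3) ℂ) = -C (-1 / 7) := by
      rw [← C_neg]; norm_num
    change fiber M 0 = _
    rw [e]
    linear_combination (-fiber M 0) * h7 + (-C (-1 / 7 : ℂ)) * h
  · exact ⟨1, 0, by simp⟩
  · exact ⟨0, 1, by simp⟩

lemma two_vanish (f : Fin 3 → ℂ) (rel : f 1 - f 2 = -7 * f 0) (p q : Fin 3) (hpq : p ≠ q)
    (hp : f p = 0) (hq : f q = 0) : f 1 = 0 ∧ f 2 = 0 := by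
  have h012 : (p = 1 ∧ q = 2) ∨ (p = 2 ∧ q = 1) ∨ (p = 0 ∧ q = 1) ∨ (p = 1 ∧ q = 0) ∨
      (p = 0 ∧ q = 2) ∨ (p = 2 ∧ q = 0) := by
    revert hpq
    clear hp hq rel
    revert p q
    decide
  rcases h012 with ⟨rfl, rfl⟩ | ⟨rfl, rfl⟩ | ⟨rfl, rfl⟩ | ⟨rfl, rfl⟩ | ⟨rfl, rfl⟩ | ⟨rfl, rfl⟩
  · exact ⟨hp, hq⟩
  · exact ⟨hq, hp⟩
  · exact ⟨hq, by rw [hp, hq] at rel; linear_combination -rel⟩
  · exact ⟨hp, by rw [hp, hq] at rel; linear_combination -rel⟩
  · exact ⟨by rw [hp, hq] at rel; linear_combination rel, hq⟩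
  · exact ⟨by rw [hp, hq] at rel; linear_combination rel, hp⟩

lemma relation_eval (v : Fin 3 → ℂ) :
    eval v (fiber M 1) - eval v (fiber M 2) = -7 * eval v (fiber M 0) := by
  have rel := congrArg (eval v) relation
  rwa [map_sub, map_mul, eval_C] at rel

lemma base_of_isBase {v : Fin 3 → ℂ} (h : IsBase M v) :
    eval v (fiber M 1) = 0 ∧ eval v (fiber M 2) = 0 := by
  obtain ⟨-, s, t, hst, hs, ht⟩ := h
  exact two_vanish (fun i => eval v (fiber M i)) (relation_eval v) (B s) (B t) hst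
    (eval_fiber_iff.2 ⟨s, rfl, hs⟩) (eval_fiber_iff.2 ⟨t, rfl, ht⟩)

theorem isPencil : IsPencilOfBlocks 6 M W0 where
  finrank := by
    have h : LinearIndependent ℂ ![fiber M 1, fiber M 2] := by
      rw [LinearIndependent.pair_iff]
      intro x y hxy
      rw [smul_eq_C_mul, smul_eq_C_mul] at hxy
      exact comb_zero hxy
    exact finrank_span_eq_card h
  homogeneous := by
    intro P hP
    obtain ⟨x, y, rfl⟩ := mem_W0.1 hP
    exact ((fiber_homogeneous 1).C_mul x).add ((fiber_homogeneous 2).C_mul y)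
  fiber_mem := fiber_mem_W0
  no_fixed := by
    intro D hD
    exact fibers_relprime (i := 1) (j := 2) (by decide) (hD _ (fiber_mem_W0 1)) (hD _ (fiber_mem_W0 2))
  base := by
    intro v hv
    constructor
    · intro h P hP
      obtain ⟨h1, h2⟩ := base_of_isBase h
      obtain ⟨x, y, rfl⟩ := mem_W0.1 hP
      rw [map_add, map_mul, map_mul, h1, h2, mul_zero, mul_zero, add_zero]
    · intro h
      obtain ⟨s, hs, hs'⟩ := eval_fiber_iff.1 (h _ (fiber_mem_W0 1))
      obtain ⟨t, ht, ht'⟩ := eval_fiber_iff.1 (h _ (fiber_mem_W0 2))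
      refine ⟨hv, s, t, ?_, hs', ht'⟩
      change B s ≠ B t
      rw [hs, ht]
      decide

end Pool.Agent.H284_heavy
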