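import Pool.Agent.H284_heavy.Third
import Pool.Agent.H284_heavy.Local

/-!
# All members of the pencil are smooth at the base points with `x ≠ 0`
-/

set_option autoImplicit false

open MvPolynomial

namespace Pool.Agent.H284_heavy

lemma fiber_one' : fiber M 1 = (X 1 ^ 2 - C 225 * X 0 ^ 2) * (X 2 ^ 2 - C 900 * X 0 ^ 2) *
    ((X 1 + X 2) ^ 2 - C 16 * X 0 ^ 2) := by
  rw [fiber_one]
  simp only [lin, M, L]
  simp [map_ofNat]
  ring

lemma fiber_two' : fiber M 2 = (X 1 ^ 2 - C 36 * X 0 ^ 2) * (X 2 ^ 2 - C 25 * X 0 ^ 2) *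
    ((X 1 + X 2) ^ 2 - C 3600 * X 0 ^ 2) := by
  rw [fiber_two]
  simp only [lin, M, L]
  simp [map_ofNat]
  ring

lemma pd1 (a b c : ℂ) (v : Fin 3 → ℂ) : eval v (pderiv 1 ((X 1 ^ 2 - C a * X 0 ^ 2) *
    (X 2 ^ 2 - C b * X 0 ^ 2) * ((X 1 + X 2) ^ 2 - C c * X 0 ^ 2) : MvPolynomial (Fin 3) ℂ)) =
    2 * v 1 * (v 2 ^ 2 - b * v 0 ^ 2) * ((v 1 + v 2) ^ 2 - c * v 0 ^ 2) +
    (v 1 ^ 2 - a * v 0 ^ 2) * (v 2 ^ 2 - b * v 0 ^ 2) * (2 * (v 1 + v 2)) := by
  simp [pderiv_X]
  ring

lemma pd2 (a b c : ℂ) (v : Fin 3 → ℂ) : eval v (pderiv 2 ((X 1 ^ 2 - C a * X 0 ^ 2) *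
    (X 2 ^ 2 - C b * X 0 ^ 2) * ((X 1 + X 2) ^ 2 - C c * X 0 ^ 2) : MvPolynomial (Fin 3) ℂ)) =
    (v 1 ^ 2 - a * v 0 ^ 2) * (2 * v 2) * ((v 1 + v 2) ^ 2 - c * v 0 ^ 2) +
    (v 1 ^ 2 - a * v 0 ^ 2) * (v 2 ^ 2 - b * v 0 ^ 2) * (2 * (v 1 + v 2)) := by
  simp [pderiv_X]
  ring

/-- three concurrent lines -/
lemma trip {x y z a b c : ℂ} (hx : x ≠ 0) (h1 : y ^ 2 = a * x ^ 2) (h2 : z ^ 2 = b * x ^ 2)
    (h3 : (y + z) ^ 2 = c * x ^ 2) : (c - a - b) ^ 2 = 4 * a * b := by
  have h4 : 2 * (y * z) = (c - a - b) * x ^ 2 := by linear_combination h3 - h1 - h2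
  have h5 : ((c - a - b) ^ 2 - 4 * a * b) * (x ^ 2) ^ 2 = 0 := by
    linear_combination (-(2 * (y * z)) - (c - a - b) * x ^ 2) * h4 + 4 * z ^ 2 * h1 +
      4 * a * x ^ 2 * h2
  have h6 : (x ^ 2) ^ 2 ≠ 0 := pow_ne_zero 2 (pow_ne_zero 2 hx)
  exact sub_eq_zero.1 ((mul_eq_zero.1 h5).resolve_right h6)

lemma sq_diff {x y a b : ℂ} (hx : x ≠ 0) (hab : a ≠ b) (h : y ^ 2 = a * x ^ 2) :
    y ^ 2 - b * x ^ 2 ≠ 0 := by
  intro h'
  have : (a - b) * x ^ 2 = 0 := by linear_combination h' - h
  rcases mul_eq_zero.1 this with h | h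
  · exact hab (sub_eq_zero.1 h)
  · exact pow_ne_zero 2 hx h

lemma root_ne {x y a : ℂ} (hx : x ≠ 0) (ha : a ≠ 0) (h : y ^ 2 = a * x ^ 2) : y ≠ 0 := by
  rintro rfl
  rw [zero_pow two_ne_zero] at h
  exact mul_ne_zero ha (pow_ne_zero 2 hx) h.symm

lemma smooth {x y z α β : ℂ} (hx : x ≠ 0)
    (hG : (y ^ 2 - 225 * x ^ 2) * (z ^ 2 - 900 * x ^ 2) * ((y + z) ^ 2 - 16 * x ^ 2) = 0)
    (hH : (y ^ 2 - 36 * x ^ 2) * (z ^ 2 - 25 * x ^ 2) * ((y + z) ^ 2 - 3600 * x ^ 2) = 0)
    (hy : α * (2 * y * (z ^ 2 - 900 * x ^ 2) * ((y + z) ^ 2 - 16 * x ^ 2) +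
        (y ^ 2 - 225 * x ^ 2) * (z ^ 2 - 900 * x ^ 2) * (2 * (y + z))) +
      β * (2 * y * (z ^ 2 - 25 * x ^ 2) * ((y + z) ^ 2 - 3600 * x ^ 2) +
        (y ^ 2 - 36 * x ^ 2) * (z ^ 2 - 25 * x ^ 2) * (2 * (y + z))) = 0)
    (hz : α * ((y ^ 2 - 225 * x ^ 2) * (2 * z) * ((y + z) ^ 2 - 16 * x ^ 2) +
        (y ^ 2 - 225 * x ^ 2) * (z ^ 2 - 900 * x ^ 2) * (2 * (y + z))) +
      β * ((y ^ 2 - 36 * x ^ 2) * (2 * z) * ((y + z) ^ 2 - 3600 * x ^ 2) +
        (y ^ 2 - 36 * x ^ 2) * (z ^ 2 - 25 * x ^ 2) * (2 * (y + z))) = 0) :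
    α = 0 ∧ β = 0 := by
  have two : (2 : ℂ) ≠ 0 := two_ne_zero
  have cancel : ∀ {u s t r : ℂ}, u * (2 * s * t * r) = 0 → s ≠ 0 → t ≠ 0 → r ≠ 0 → u = 0 := by
    intro u s t r h h1 h2 h3
    exact (mul_eq_zero.1 h).resolve_right (mul_ne_zero (mul_ne_zero (mul_ne_zero two h1) h2) h3)
  rcases mul_eq_zero.1 hG with hG | g3
  · rcases mul_eq_zero.1 hG with g1 | g2
    · have g1' := sub_eq_zero.1 g1
      rcases mul_eq_zero.1 hH with hH | h3
      · rcases mul_eq_zero.1 hH with h1 | h2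
        · exact absurd h1 (sq_diff hx (by norm_num) g1')
        · have h2' := sub_eq_zero.1 h2
          rw [g1, h2] at hy hz
          constructor
          · refine cancel (s := y) (t := z ^ 2 - 900 * x ^ 2) (r := (y + z) ^ 2 - 16 * x ^ 2)
              (by linear_combination hy) (root_ne hx (by norm_num) g1')
              (sq_diff hx (by norm_num) h2') (fun h => ?_)
            have := trip hx g1' h2' (sub_eq_zero.1 h)
            norm_num at this
          · refine cancel (s := z) (t := y ^ 2 - 36 * x ^ 2) (r := (y + z) ^ 2 - 3600 * x ^ 2)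
              (by linear_combination hz) (root_ne hx (by norm_num) h2')
              (sq_diff hx (by norm_num) g1') (fun h => ?_)
            have := trip hx g1' h2' (sub_eq_zero.1 h)
            norm_num at this
      · have h3' := sub_eq_zero.1 h3
        rw [g1, h3] at hy hz
        have hβ : β = 0 := by
          refine cancel (s := y + z) (t := y ^ 2 - 36 * x ^ 2) (r := z ^ 2 - 25 * x ^ 2)
            (by linear_combination hz) (root_ne hx (by norm_num) h3')
            (sq_diff hx (by norm_num) g1') (fun h => ?_)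
          have := trip hx g1' (sub_eq_zero.1 h) h3'
          norm_num at this
        refine ⟨?_, hβ⟩
        rw [hβ] at hy
        refine cancel (s := y) (t := z ^ 2 - 900 * x ^ 2) (r := (y + z) ^ 2 - 16 * x ^ 2)
          (by linear_combination hy) (root_ne hx (by norm_num) g1') (fun h => ?_)
          (sq_diff hx (by norm_num) h3')
        have := trip hx g1' (sub_eq_zero.1 h) h3'
        norm_num at this
    · have g2' := sub_eq_zero.1 g2
      rcases mul_eq_zero.1 hH with hH | h3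
      · rcases mul_eq_zero.1 hH with h1 | h2
        · have h1' := sub_eq_zero.1 h1
          rw [g2, h1] at hy hz
          constructor
          · refine cancel (s := z) (t := y ^ 2 - 225 * x ^ 2) (r := (y + z) ^ 2 - 16 * x ^ 2)
              (by linear_combination hz) (root_ne hx (by norm_num) g2')
              (sq_diff hx (by norm_num) h1') (fun h => ?_)
            have := trip hx h1' g2' (sub_eq_zero.1 h)
            norm_num at this
          · refine cancel (s := y) (t := z ^ 2 - 25 * x ^ 2) (r := (y + z) ^ 2 - 3600 * x ^ 2)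
              (by linear_combination hy) (root_ne hx (by norm_num) h1')
              (sq_diff hx (by norm_num) g2') (fun h => ?_)
            have := trip hx h1' g2' (sub_eq_zero.1 h)
            norm_num at this
        · exact absurd h2 (sq_diff hx (by norm_num) g2')
      · have h3' := sub_eq_zero.1 h3
        rw [g2, h3] at hy hz
        have hβ : β = 0 := by
          refine cancel (s := y + z) (t := y ^ 2 - 36 * x ^ 2) (r := z ^ 2 - 25 * x ^ 2)
            (by linear_combination hy) (root_ne hx (by norm_num) h3') (fun h => ?_)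
            (sq_diff hx (by norm_num) g2')
          have := trip hx (sub_eq_zero.1 h) g2' h3'
          norm_num at this
        refine ⟨?_, hβ⟩
        rw [hβ] at hz
        refine cancel (s := z) (t := y ^ 2 - 225 * x ^ 2) (r := (y + z) ^ 2 - 16 * x ^ 2)
          (by linear_combination hz) (root_ne hx (by norm_num) g2') (fun h => ?_)
          (sq_diff hx (by norm_num) h3')
        have := trip hx (sub_eq_zero.1 h) g2' h3'
        norm_num at this
  · have g3' := sub_eq_zero.1 g3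
    rcases mul_eq_zero.1 hH with hH | h3
    · rcases mul_eq_zero.1 hH with h1 | h2
      · have h1' := sub_eq_zero.1 h1
        rw [g3, h1] at hy hz
        have hα : α = 0 := by
          refine cancel (s := y + z) (t := y ^ 2 - 225 * x ^ 2) (r := z ^ 2 - 900 * x ^ 2)
            (by linear_combination hz) (root_ne hx (by norm_num) g3')
            (sq_diff hx (by norm_num) h1') (fun h => ?_)
          have := trip hx h1' (sub_eq_zero.1 h) g3'
          norm_num at this
        refine ⟨hα, ?_⟩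
        rw [hα] at hy
        refine cancel (s := y) (t := z ^ 2 - 25 * x ^ 2) (r := (y + z) ^ 2 - 3600 * x ^ 2)
          (by linear_combination hy) (root_ne hx (by norm_num) h1') (fun h => ?_)
          (sq_diff hx (by norm_num) g3')
        have := trip hx h1' (sub_eq_zero.1 h) g3'
        norm_num at this
      · have h2' := sub_eq_zero.1 h2
        rw [g3, h2] at hy hz
        have hα : α = 0 := by
          refine cancel (s := y + z) (t := y ^ 2 - 225 * x ^ 2) (r := z ^ 2 - 900 * x ^ 2)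
            (by linear_combination hy) (root_ne hx (by norm_num) g3') (fun h => ?_)
            (sq_diff hx (by norm_num) h2')
          have := trip hx (sub_eq_zero.1 h) h2' g3'
          norm_num at this
        refine ⟨hα, ?_⟩
        rw [hα] at hz
        refine cancel (s := z) (t := y ^ 2 - 36 * x ^ 2) (r := (y + z) ^ 2 - 3600 * x ^ 2)
          (by linear_combination hz) (root_ne hx (by norm_num) h2') (fun h => ?_)
          (sq_diff hx (by norm_num) g3')
        have := trip hx (sub_eq_zero.1 h) h2' g3'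
        norm_num at this
    · exact absurd h3 (sq_diff hx (by norm_num) g3')

/-- If a member `A B` of the pencil has a point with `A = B = 0` and `x ≠ 0`, then this point is not
a base point. -/
lemma not_base {α β : ℂ} (hγ : α + β ≠ 0) {A B : MvPolynomial (Fin 3) ℂ}
    (h : C α * fiber M 1 + C β * fiber M 2 = A * B) {v : Fin 3 → ℂ} (hv : v 0 ≠ 0)
    (hA : eval v A = 0) (hB : eval v B = 0) : ¬ IsBase M v := by
  intro hb
  obtain ⟨h1, h2⟩ := base_of_isBase hb
  rw [eval_one] at h1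
  rw [eval_two] at h2
  have hd : ∀ j, eval v (pderiv j (C α * fiber M 1 + C β * fiber M 2)) = 0 := by
    intro j
    rw [h, pderiv_mul, map_add, map_mul, map_mul, hA, hB]
    ring
  have em : ∀ (a : ℂ) (q : MvPolynomial (Fin 3) ℂ), eval v (C a * q) = a * eval v q :=
    fun a q => by rw [map_mul, eval_C]
  have e1 := hd 1
  have e2 := hd 2
  rw [map_add, pderiv_C_mul, pderiv_C_mul, fiber_one', fiber_two', map_add, em, em,
    pd1, pd1] at e1
  rw [map_add, pderiv_C_mul, pderiv_C_mul, fiber_one', fiber_two', map_add, em, em,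
    pd2, pd2] at e2
  obtain ⟨ha, hb'⟩ := smooth hv h1 h2 e1 e2
  exact hγ (by rw [ha, hb', add_zero])

end Pool.Agent.H284_heavy
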