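import Pool.Agent.H284_heavy.Pencil

/-!
# The pencil of the example has exactly three completely reducible fibers
-/

set_option autoImplicit false

open MvPolynomial

namespace Pool.Agent.H284_heavy

lemma eval_one (v : Fin 3 → ℂ) : eval v (fiber M 1) =
    (v 1 ^ 2 - 225 * v 0 ^ 2) * (v 2 ^ 2 - 900 * v 0 ^ 2) * ((v 1 + v 2) ^ 2 - 16 * v 0 ^ 2) := by
  rw [fiber_one]
  simp only [map_mul, eval_lin, val]
  simp [M, L]
  ring

lemma eval_two (v : Fin 3 → ℂ) : eval v (fiber M 2) =
    (v 1 ^ 2 - 36 * v 0 ^ 2) * (v 2 ^ 2 - 25 * v 0 ^ 2) * ((v 1 + v 2) ^ 2 - 3600 * v 0 ^ 2) := by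
  rw [fiber_two]
  simp only [map_mul, eval_lin, val]
  simp [M, L]
  ring

lemma eval_comb (α β x y z : ℂ) : eval ![x, y, z] (C α * fiber M 1 + C β * fiber M 2) =
    α * ((y ^ 2 - 225 * x ^ 2) * (z ^ 2 - 900 * x ^ 2) * ((y + z) ^ 2 - 16 * x ^ 2)) +
    β * ((y ^ 2 - 36 * x ^ 2) * (z ^ 2 - 25 * x ^ 2) * ((y + z) ^ 2 - 3600 * x ^ 2)) := by
  rw [map_add, map_mul, map_mul, eval_C, eval_C, eval_one, eval_two]
  simp

lemma sq_contra {s c d : ℂ} (hc : c ≠ 0) (h1 : (c - s) ^ 2 = d) (h2 : (c + s) ^ 2 = d)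
    (hd : c ^ 2 ≠ d) : False := by
  have h3 : 4 * (c * s) = 0 := by linear_combination h2 - h1
  have h4 : s = 0 := by
    rcases mul_eq_zero.1 h3 with h | h
    · norm_num at h
    · exact (mul_eq_zero.1 h).resolve_left hc
  rw [h4, sub_zero] at h1
  exact hd h1

/-- A member of the pencil with a linear factor is a multiple of one of the three block forms. -/
theorem no_linear_factor {α β : ℂ} {a : Fin 3 → ℂ} (hγ : α + β ≠ 0)
    (h : lin a ∣ C α * fiber M 1 + C β * fiber M 2) : α = 0 ∨ β = 0 := by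
  have hv : ∀ x y z : ℂ, a 0 * x + a 1 * y + a 2 * z = 0 →
      α * ((y ^ 2 - 225 * x ^ 2) * (z ^ 2 - 900 * x ^ 2) * ((y + z) ^ 2 - 16 * x ^ 2)) +
      β * ((y ^ 2 - 36 * x ^ 2) * (z ^ 2 - 25 * x ^ 2) * ((y + z) ^ 2 - 3600 * x ^ 2)) = 0 := by
    intro x y z hxyz
    obtain ⟨Q, hQ⟩ := h
    rw [← eval_comb, hQ, map_mul, eval_lin]
    have : val a ![x, y, z] = 0 := by simpa [val] using hxyz
    rw [this, zero_mul]
  by_contra hcon
  push Not at hcon
  obtain ⟨hα, hβ⟩ := hcon
  have h0 := hv 0 (a 2) (-a 1) (by ring)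
  have h1 : (α + β) * (a 2 ^ 2 * a 1 ^ 2 * (a 2 - a 1) ^ 2) = 0 := by linear_combination h0
  have h2 : a 2 = 0 ∨ a 1 = 0 ∨ a 2 - a 1 = 0 := by
    rcases mul_eq_zero.1 h1 with h | h
    · exact absurd h hγ
    · rcases mul_eq_zero.1 h with h | h
      · rcases mul_eq_zero.1 h with h | h
        · exact Or.inl (eq_zero_of_pow_eq_zero h)
        · exact Or.inr (Or.inl (eq_zero_of_pow_eq_zero h))
      · exact Or.inr (Or.inr (eq_zero_of_pow_eq_zero h))
  have hnot : ¬ (a 1 = 0 ∧ a 2 = 0) := by
    rintro ⟨h1, h2⟩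
    have := hv 0 1 1 (by rw [h1, h2]; ring)
    apply hγ
    linear_combination this / 4
  rcases h2 with h2 | h2 | h2
  · -- the line is y = -s x
    have h1 : a 1 ≠ 0 := fun h => hnot ⟨h, h2⟩
    set s := a 0 / a 1 with hs
    have e : ∀ z : ℂ, α * ((s ^ 2 - 225) * (z ^ 2 - 900) * ((z - s) ^ 2 - 16)) +
        β * ((s ^ 2 - 36) * (z ^ 2 - 25) * ((z - s) ^ 2 - 3600)) = 0 := by
      intro z
      have := hv 1 (-s) z (by rw [h2, hs]; field_simp; ring)
      linear_combination this
    have e1 := e 30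
    have e2 := e (-30)
    have f1 : (s ^ 2 - 36) * ((30 - s) ^ 2 - 3600) = 0 := by
      apply mul_left_cancel₀ hβ
      linear_combination e1 / 875
    have f2 : (s ^ 2 - 36) * ((30 + s) ^ 2 - 3600) = 0 := by
      apply mul_left_cancel₀ hβ
      linear_combination e2 / 875
    have hs36 : s ^ 2 - 36 = 0 := by
      by_contra hne
      exact sq_contra (s := s) (c := 30) (d := 3600) (by norm_num)
        (sub_eq_zero.1 ((mul_eq_zero.1 f1).resolve_left hne))
        (sub_eq_zero.1 ((mul_eq_zero.1 f2).resolve_left hne)) (by norm_num)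
    have g : ∀ z : ℂ, (z ^ 2 - 900) * ((z - s) ^ 2 - 16) = 0 := by
      intro z
      apply mul_left_cancel₀ hα
      have hs' : s ^ 2 = 36 := sub_eq_zero.1 hs36
      have := e z
      rw [hs'] at this
      linear_combination this / (-189)
    have g1 := g (s + 40)
    have g2 := g (s - 40)
    have g1' : (s + 40) ^ 2 - 900 = 0 := by
      have : ((s + 40) ^ 2 - 900) * 1584 = 0 := by linear_combination g1
      exact (mul_eq_zero.1 this).resolve_right (by norm_num)
    have g2' : (s - 40) ^ 2 - 900 = 0 := by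
      have : ((s - 40) ^ 2 - 900) * 1584 = 0 := by linear_combination g2
      exact (mul_eq_zero.1 this).resolve_right (by norm_num)
    have : s = 0 := by linear_combination (g1' - g2') / 160
    rw [this] at hs36
    norm_num at hs36
  · -- the line is z = -s x
    have h1 : a 2 ≠ 0 := fun h => hnot ⟨h2, h⟩
    set s := a 0 / a 2 with hs
    have e : ∀ y : ℂ, α * ((y ^ 2 - 225) * (s ^ 2 - 900) * ((y - s) ^ 2 - 16)) +
        β * ((y ^ 2 - 36) * (s ^ 2 - 25) * ((y - s) ^ 2 - 3600)) = 0 := by
      intro y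
      have := hv 1 y (-s) (by rw [h2, hs]; field_simp; ring)
      linear_combination this
    have e1 := e 15
    have e2 := e (-15)
    have f1 : (s ^ 2 - 25) * ((15 - s) ^ 2 - 3600) = 0 := by
      apply mul_left_cancel₀ hβ
      linear_combination e1 / 189
    have f2 : (s ^ 2 - 25) * ((15 + s) ^ 2 - 3600) = 0 := by
      apply mul_left_cancel₀ hβ
      linear_combination e2 / 189
    have hs36 : s ^ 2 - 25 = 0 := by
      by_contra hne
      exact sq_contra (s := s) (c := 15) (d := 3600) (by norm_num)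
        (sub_eq_zero.1 ((mul_eq_zero.1 f1).resolve_left hne))
        (sub_eq_zero.1 ((mul_eq_zero.1 f2).resolve_left hne)) (by norm_num)
    have g : ∀ y : ℂ, (y ^ 2 - 225) * ((y - s) ^ 2 - 16) = 0 := by
      intro y
      apply mul_left_cancel₀ hα
      have hs' : s ^ 2 = 25 := sub_eq_zero.1 hs36
      have := e y
      rw [hs'] at this
      linear_combination this / (-875)
    have g1 := g (s + 40)
    have g2 := g (s - 40)
    have g1' : (s + 40) ^ 2 - 225 = 0 := by
      have : ((s + 40) ^ 2 - 225) * 1584 = 0 := by linear_combination g1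
      exact (mul_eq_zero.1 this).resolve_right (by norm_num)
    have g2' : (s - 40) ^ 2 - 225 = 0 := by
      have : ((s - 40) ^ 2 - 225) * 1584 = 0 := by linear_combination g2
      exact (mul_eq_zero.1 this).resolve_right (by norm_num)
    have : s = 0 := by linear_combination (g1' - g2') / 160
    rw [this] at hs36
    norm_num at hs36
  · -- the line is y + z = -s x
    have h3 : a 2 = a 1 := sub_eq_zero.1 h2
    have h1 : a 1 ≠ 0 := fun h => hnot ⟨h, by rw [h3, h]⟩
    set s := a 0 / a 1 with hs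
    have e : ∀ y : ℂ, α * ((y ^ 2 - 225) * ((y + s) ^ 2 - 900) * (s ^ 2 - 16)) +
        β * ((y ^ 2 - 36) * ((y + s) ^ 2 - 25) * (s ^ 2 - 3600)) = 0 := by
      intro y
      have := hv 1 y (-y - s) (by rw [h3, hs]; field_simp; ring)
      linear_combination this
    have e1 := e 15
    have e2 := e (-15)
    have f1 : (s ^ 2 - 3600) * ((15 + s) ^ 2 - 25) = 0 := by
      apply mul_left_cancel₀ hβ
      linear_combination e1 / 189
    have f2 : (s ^ 2 - 3600) * ((15 - s) ^ 2 - 25) = 0 := by
      apply mul_left_cancel₀ hβ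
      linear_combination e2 / 189
    have hs36 : s ^ 2 - 3600 = 0 := by
      by_contra hne
      exact sq_contra (s := s) (c := 15) (d := 25) (by norm_num)
        (sub_eq_zero.1 ((mul_eq_zero.1 f2).resolve_left hne))
        (sub_eq_zero.1 ((mul_eq_zero.1 f1).resolve_left hne)) (by norm_num)
    have g : ∀ y : ℂ, (y ^ 2 - 225) * ((y + s) ^ 2 - 900) = 0 := by
      intro y
      apply mul_left_cancel₀ hα
      have hs' : s ^ 2 = 3600 := sub_eq_zero.1 hs36
      have := e y
      rw [hs'] at this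
      linear_combination this / 3584
    have g1 := g (-s + 40)
    have g2 := g (-s - 40)
    have g1' : (-s + 40) ^ 2 - 225 = 0 := by
      have : ((-s + 40) ^ 2 - 225) * 700 = 0 := by linear_combination g1
      exact (mul_eq_zero.1 this).resolve_right (by norm_num)
    have g2' : (-s - 40) ^ 2 - 225 = 0 := by
      have : ((-s - 40) ^ 2 - 225) * 700 = 0 := by linear_combination g2
      exact (mul_eq_zero.1 this).resolve_right (by norm_num)
    have : s = 0 := by linear_combination (g2' - g1') / 160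
    rw [this] at hs36
    norm_num at hs36

/-- The completely reducible members of the pencil are the multiples of the block forms. -/
theorem completely_reducible {P : MvPolynomial (Fin 3) ℂ} (hP : P ∈ W0) (hP0 : P ≠ 0)
    {r : ℕ} (a : Fin r → Fin 3 → ℂ) (c : ℂ) (h : P = C c * ∏ i, lin (a i)) :
    ∃ (i : Fin 3) (k : ℂ), P = C k * fiber M i := by
  obtain ⟨α, β, rfl⟩ := mem_W0.1 hP
  by_cases hγ : α + β = 0
  · refine ⟨0, -7 * α, ?_⟩
    have hβ : β = -α := by linear_combination hγ
    have := relation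
    rw [hβ, C_mul, C_neg]
    linear_combination C α * this
  · have hr : 0 < r := by
      by_contra hr
      have hr0 : r = 0 := by omega
      subst hr0
      simp only [Finset.univ_eq_empty, Finset.prod_empty, mul_one] at h
      have hh := ((fiber_homogeneous 1).C_mul α).add ((fiber_homogeneous 2).C_mul β)
      have h6 := hh.totalDegree hP0
      rw [h, totalDegree_C] at h6
      exact absurd h6 (by norm_num)
    have hd : lin (a ⟨0, hr⟩) ∣ C α * fiber M 1 + C β * fiber M 2 := by
      rw [h]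
      exact (Finset.dvd_prod_of_mem _ (Finset.mem_univ _)).mul_left _
    rcases no_linear_factor hγ hd with h0 | h0
    · exact ⟨2, β, by rw [h0]; simp⟩
    · exact ⟨1, α, by rw [h0]; simp⟩

end Pool.Agent.H284_heavy
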